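import Mathlib
import Pool.Agent.Helper292.ForceCH

/-!
# The combinatorial part of the CH counterexample on sums of Grothendieck spaces

Under the continuum hypothesis we build an almost disjoint family of infinite subsets of `ℕ`,
maximal, and split into two pieces `A false`, `A true`, such that every sequence of functions on
the space `Fin ∪ A i` either has no accumulation point (it is killed) or has a subsequence
converging to zero as soon as it has one on every countable subset.
-/

set_option autoImplicit false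

open Set Filter Topology Cardinal
open Pool.Agent.Helper292.ForceCH (Om countable_Iio exists_bound)

namespace Pool.Agent.Helper901.GrothComb

/-- `u` converges to `0` along `P`. -/
def Conv (P : Set ℕ) (u : ℕ → ℝ) : Prop := ∀ ε : ℝ, 0 < ε → {n | n ∈ P ∧ ε ≤ |u n|}.Finite

/-- `x` has a gap for `g`. -/
def Gap (g : ℕ → ℕ) (x : Set ℕ) : Prop := ∃ n, ∀ b ∈ x, n ≤ b → g n ≤ b

/-- the sets which may be added to the family `C`, given the functions of `M` -/
def Allowed (C : Set (Set ℕ)) (M : Set (ℕ → ℕ)) (x : Set ℕ) : Prop :=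
  x.Infinite ∧ (∀ a ∈ C, (x ∩ a).Finite) ∧ ∀ g ∈ M, Gap g x

/-- `x` and the finite set `p` agree below `k`. -/
def Agr (k : ℕ) (p : Finset ℕ) (x : Set ℕ) : Prop := ∀ n < k, n ∈ x ↔ n ∈ p

theorem Agr.mono {k l : ℕ} {p : Finset ℕ} {x : Set ℕ} (h : Agr k p x) (hl : l ≤ k) :
    Agr l p x := fun n hn => h n (hn.trans_le hl)

theorem Allowed.mono {C C' : Set (Set ℕ)} {M M' : Set (ℕ → ℕ)} {x : Set ℕ}
    (h : Allowed C' M' x) (hC : C ⊆ C') (hM : M ⊆ M') : Allowed C M x :=
  ⟨h.1, fun a ha => h.2.1 a (hC ha), fun g hg => h.2.2 g (hM hg)⟩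

theorem Allowed.notMem {C : Set (Set ℕ)} {M : Set (ℕ → ℕ)} {x : Set ℕ}
    (h : Allowed C M x) : x ∉ C := fun hx => h.1 (by simpa using h.2.1 x hx)

theorem exists_pseudo (P : ℕ → Set ℕ) (hP : ∀ k, (P k).Infinite) (hanti : Antitone P) :
    ∃ Q : Set ℕ, Q.Infinite ∧ Q ⊆ P 0 ∧ ∀ k, (Q \ P k).Finite := by
  have h : ∀ k m, ∃ n ∈ P k, m < n := fun k m => (hP k).exists_gt m
  choose s hs1 hs2 using h
  let d : ℕ → ℕ := fun k => Nat.rec (s 0 0) (fun k n => s (k + 1) n) k
  have hd1 : ∀ k, d (k + 1) = s (k + 1) (d k) := fun k => rfl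
  have hdP : ∀ k, d k ∈ P k := by
    intro k
    cases k with
    | zero => exact hs1 0 0
    | succ k => rw [hd1]; exact hs1 _ _
  have hlt : ∀ k, d k < d (k + 1) := fun k => by rw [hd1]; exact hs2 _ _
  have hmono : StrictMono d := strictMono_nat_of_lt_succ hlt
  refine ⟨range d, infinite_range_of_injective hmono.injective, ?_, fun k => ?_⟩
  · rintro _ ⟨k, rfl⟩
    exact hanti (Nat.zero_le k) (hdP k)
  · refine ((finite_Iio k).image d).subset ?_
    rintro _ ⟨⟨l, rfl⟩, hl⟩
    refine ⟨l, ?_, rfl⟩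
    by_contra hkl
    exact hl (hanti (not_lt.1 hkl) (hdP l))

/-- Infinite subsets with gaps for countably many functions. -/
theorem exists_gaps (Y : Set ℕ) (hY : Y.Infinite) (M : Set (ℕ → ℕ)) (hM : M.Countable) :
    ∃ x ⊆ Y, x.Infinite ∧ ∀ g ∈ M, Gap g x := by
  obtain ⟨G, hG⟩ : ∃ G : ℕ → ℕ → ℕ, M ⊆ range G := by
    rcases M.eq_empty_or_nonempty with h | h
    · exact ⟨fun _ _ => 0, by rw [h]; exact empty_subset _⟩
    · obtain ⟨G, hG⟩ := hM.exists_eq_range h
      exact ⟨G, hG.subset⟩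
  have hgt : ∀ n, ∃ b ∈ Y, n < b := fun n => hY.exists_gt n
  choose s hsY hs using hgt
  let next : ℕ → ℕ → ℕ := fun k n => s (max n ((Finset.range (k + 1)).sup fun i => G i (n + 1)))
  let d : ℕ → ℕ := fun k => Nat.rec (s 0) (fun k n => next k n) k
  have hd1 : ∀ k, d (k + 1) = next k (d k) := fun k => rfl
  have hdY : ∀ k, d k ∈ Y := by
    intro k
    cases k with
    | zero => exact hsY 0
    | succ k => rw [hd1]; exact hsY _
  have hlt : ∀ k, d k < d (k + 1) := by
    intro k
    rw [hd1]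
    exact lt_of_le_of_lt (le_max_left _ _) (hs _)
  have hmono : StrictMono d := strictMono_nat_of_lt_succ hlt
  have hGd : ∀ k i, i ≤ k → G i (d k + 1) < d (k + 1) := by
    intro k i hik
    rw [hd1]
    refine lt_of_le_of_lt ?_ (hs _)
    refine le_trans ?_ (le_max_right _ _)
    exact Finset.le_sup (f := fun i => G i (d k + 1)) (Finset.mem_range.2 (by omega))
  refine ⟨range d, ?_, infinite_range_of_injective hmono.injective, ?_⟩
  · rintro _ ⟨k, rfl⟩; exact hdY k
  · intro g hg
    obtain ⟨i, rfl⟩ := hG hg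
    refine ⟨d i + 1, ?_⟩
    rintro _ ⟨l, rfl⟩ hl
    have h2 : i < l := hmono.lt_iff_lt.1 (by omega)
    exact (hGd i i le_rfl).le.trans (hmono.monotone h2)

/-! ### The dichotomy -/

/-- the task treated at step `k` -/
noncomputable def task (k : ℕ) : Finset ℕ × ℕ :=
  ((Encodable.decode (α := Finset ℕ × ℕ) (Nat.unpair k).1).getD (∅, 0))

theorem task_infinite (t : Finset ℕ × ℕ) (j : ℕ) : ∃ k, j ≤ k ∧ task k = t := by
  refine ⟨Nat.pair (Encodable.encode t) j, Nat.right_le_pair _ _, ?_⟩
  simp [task]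

/-- one extension step -/
def Ext (C : Set (Set ℕ)) (M : Set (ℕ → ℕ)) (v : ℕ → Set ℕ → ℝ) (k : ℕ)
    (s : Set ℕ × Set (Set ℕ)) (x : Set ℕ) (Q : Set ℕ) : Prop :=
  Allowed (C ∪ s.2) M x ∧ Agr k (task k).1 x ∧ Q ⊆ s.1 ∧ Q.Infinite ∧
    ∀ n ∈ Q, 1 / ((task k).2 + 1 : ℝ) ≤ |v n x|

theorem dichotomy (C : Set (Set ℕ)) (M : Set (ℕ → ℕ)) (v : ℕ → Set ℕ → ℝ) (P : Set ℕ)
    (hP : P.Infinite) :
    ∃ (Q : Set ℕ) (D : Set (Set ℕ)) (N : Set (ℕ → ℕ)), Q.Infinite ∧ Q ⊆ P ∧ D.Countable ∧
      N.Countable ∧ (∀ x ∈ D, Allowed C M x) ∧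
      (∀ x ∈ D, ∀ y ∈ D, x ≠ y → (x ∩ y).Finite) ∧
      ((∃ p : Finset ℕ, ∃ ε : ℝ, 0 < ε ∧
        ∀ j, ∃ x ∈ D, Agr j p x ∧ {n | n ∈ Q ∧ |v n x| < ε}.Finite) ∨
       (∀ x, Allowed (C ∪ D) (M ∪ N) x → Conv Q (fun n => v n x))) := by
  classical
  -- the recursion
  have hstep : ∀ k (s : Set ℕ × Set (Set ℕ)), ∃ t : Set ℕ × Set (Set ℕ),
      (∃ x Q, Ext C M v k s x Q ∧ t = (Q, insert x s.2)) ∨
      ((¬ ∃ x Q, Ext C M v k s x Q) ∧ t = s) := by
    intro k s
    by_cases h : ∃ x Q, Ext C M v k s x Q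
    · obtain ⟨x, Q, hx⟩ := h
      exact ⟨_, Or.inl ⟨x, Q, hx, rfl⟩⟩
    · exact ⟨s, Or.inr ⟨h, rfl⟩⟩
  choose F hF using hstep
  let s : ℕ → Set ℕ × Set (Set ℕ) := fun k => Nat.rec (P, ∅) (fun k t => F k t) k
  have hs1 : ∀ k, s (k + 1) = F k (s k) := fun k => rfl
  have hs0 : s 0 = (P, ∅) := rfl
  have hsF : ∀ k, (∃ x Q, Ext C M v k (s k) x Q ∧ s (k + 1) = (Q, insert x (s k).2)) ∨
      ((¬ ∃ x Q, Ext C M v k (s k) x Q) ∧ s (k + 1) = s k) := fun k => hF k (s k)
  have hinf : ∀ k, (s k).1.Infinite := by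
    intro k
    induction k with
    | zero => exact hP
    | succ k ih =>
      rcases hsF k with ⟨x, Q, hx, he⟩ | ⟨_, he⟩
      · rw [he]; exact hx.2.2.2.1
      · rw [he]; exact ih
  have hanti : Antitone (fun k => (s k).1) := by
    refine antitone_nat_of_succ_le fun k => ?_
    rcases hsF k with ⟨x, Q, hx, he⟩ | ⟨_, he⟩
    · simp only [he]; exact hx.2.2.1
    · simp only [he]; exact le_rfl
  have hmono : Monotone (fun k => (s k).2) := by
    refine monotone_nat_of_le_succ fun k => ?_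
    rcases hsF k with ⟨x, Q, hx, he⟩ | ⟨_, he⟩
    · simp only [he]; exact subset_insert _ _
    · simp only [he]; exact le_rfl
  have hcount : ∀ k, (s k).2.Countable := by
    intro k
    induction k with
    | zero => exact countable_empty
    | succ k ih =>
      rcases hsF k with ⟨x, Q, hx, he⟩ | ⟨_, he⟩
      · rw [he]; exact ih.insert x
      · rw [he]; exact ih
  have hall : ∀ k, ∀ x ∈ (s k).2, Allowed C M x := by
    intro k
    induction k with
    | zero => intro x hx; exact absurd hx (notMem_empty x)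
    | succ k ih =>
      rcases hsF k with ⟨x, Q, hx, he⟩ | ⟨_, he⟩
      · rw [he]
        rintro y (rfl | hy)
        · exact hx.1.mono subset_union_left le_rfl
        · exact ih y hy
      · rw [he]; exact ih
  have hAD : ∀ k, ∀ x ∈ (s k).2, ∀ y ∈ (s k).2, x ≠ y → (x ∩ y).Finite := by
    intro k
    induction k with
    | zero => intro x hx; exact absurd hx (notMem_empty x)
    | succ k ih =>
      rcases hsF k with ⟨z, Q, hz, he⟩ | ⟨_, he⟩
      · rw [he]
        rintro x (rfl | hx) y (rfl | hy) hxy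
        · exact absurd rfl hxy
        · exact hz.1.2.1 y (Or.inr hy)
        · rw [inter_comm]; exact hz.1.2.1 x (Or.inr hx)
        · exact ih x hx y hy hxy
      · rw [he]; exact ih
  obtain ⟨Q, hQ, hQP, hQk⟩ := exists_pseudo (fun k => (s k).1) hinf hanti
  -- the functions
  by_cases hK : ∃ t : Finset ℕ × ℕ, ∀ j, ∃ k, j ≤ k ∧ task k = t ∧
      ∃ x Q, Ext C M v k (s k) x Q ∧ s (k + 1) = (Q, insert x (s k).2)
  · obtain ⟨t, ht⟩ := hK
    refine ⟨Q, ⋃ k, (s k).2, ∅, hQ, hQP, countable_iUnion hcount, countable_empty, ?_, ?_,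
      Or.inl ⟨t.1, 1 / (t.2 + 1 : ℝ), by positivity, fun j => ?_⟩⟩
    · intro x hx
      obtain ⟨k, hk⟩ := mem_iUnion.1 hx
      exact hall k x hk
    · intro x hx y hy hxy
      obtain ⟨k, hk⟩ := mem_iUnion.1 hx
      obtain ⟨l, hl⟩ := mem_iUnion.1 hy
      exact hAD (max k l) x (hmono (le_max_left _ _) hk) y (hmono (le_max_right _ _) hl) hxy
    · obtain ⟨k, hjk, htk, x, R, hx, he⟩ := ht j
      refine ⟨x, mem_iUnion.2 ⟨k + 1, by rw [he]; exact mem_insert _ _⟩, ?_, ?_⟩
      · have := hx.2.1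
        rw [htk] at this
        exact this.mono hjk
      · refine (hQk (k + 1)).subset ?_
        rintro n ⟨hn, hn2⟩
        refine ⟨hn, fun hn3 => ?_⟩
        rw [he] at hn3
        have := hx.2.2.2.2 n hn3
        rw [htk] at this
        exact absurd hn2 (not_lt.2 this)
  · push Not at hK
    -- for every task a failing step
    have hfail : ∀ t : Finset ℕ × ℕ, ∃ k, task k = t ∧ ¬ ∃ x Q, Ext C M v k (s k) x Q := by
      intro t
      obtain ⟨j, hj⟩ := hK t
      obtain ⟨k, hjk, hk⟩ := task_infinite t j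
      refine ⟨k, hk, ?_⟩
      rcases hsF k with ⟨x, R, hx, he⟩ | ⟨h, _⟩
      · exact absurd he (hj k hjk hk x R hx)
      · exact h
    choose κ hκ1 hκ2 using hfail
    let g : ℕ → ℕ → ℕ := fun l n => (Finset.range n).powerset.sup fun p => κ (p, l)
    refine ⟨Q, ⋃ k, (s k).2, range g, hQ, hQP, countable_iUnion hcount, countable_range g, ?_, ?_,
      Or.inr fun x hx => ?_⟩
    · intro x hx
      obtain ⟨k, hk⟩ := mem_iUnion.1 hx
      exact hall k x hk
    · intro x hx y hy hxy
      obtain ⟨k, hk⟩ := mem_iUnion.1 hx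
      obtain ⟨l, hl⟩ := mem_iUnion.1 hy
      exact hAD (max k l) x (hmono (le_max_left _ _) hk) y (hmono (le_max_right _ _) hl) hxy
    · intro ε hε
      obtain ⟨l, hl⟩ := exists_nat_one_div_lt hε
      obtain ⟨n, hn⟩ := hx.2.2 (g l) (Or.inr ⟨l, rfl⟩)
      let p : Finset ℕ := (Finset.range n).filter (· ∈ x)
      have hpn : p ∈ (Finset.range n).powerset := by
        rw [Finset.mem_powerset]; exact Finset.filter_subset _ _
      have hκg : κ (p, l) ≤ g l n := Finset.le_sup (f := fun p => κ (p, l)) hpn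
      have hag : Agr (κ (p, l)) p x := by
        intro a ha
        constructor
        · intro hax
          simp only [p, Finset.mem_filter, Finset.mem_range]
          refine ⟨?_, hax⟩
          by_contra hna
          have := hn a hax (by omega)
          omega
        · intro hap
          simp only [p, Finset.mem_filter] at hap
          exact hap.2
      have hno := hκ2 (p, l)
      by_contra hinf2
      apply hno
      have hsub : {n | n ∈ Q ∧ ε ≤ |v n x|} \ (Q \ (s (κ (p, l))).1) ⊆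
          {n | n ∈ (s (κ (p, l))).1 ∧ 1 / (l + 1 : ℝ) ≤ |v n x|} := by
        rintro a ⟨⟨ha1, ha2⟩, ha3⟩
        refine ⟨?_, hl.le.trans ha2⟩
        by_contra h
        exact ha3 ⟨ha1, h⟩
      have hinf3 := (Set.Infinite.sdiff hinf2 (hQk (κ (p, l)))).mono hsub
      refine ⟨x, _, ⟨?_, ?_, fun a ha => ha.1, hinf3, fun a ha => ?_⟩⟩
      · refine hx.mono ?_ subset_union_left
        exact union_subset_union_right _ (subset_iUnion (fun k => (s k).2) _)
      · rw [hκ1]; exact hag
      · rw [hκ1]; exact ha.2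

/-! ### One stage -/

open Classical in
/-- the trace of `x` below `m` -/
noncomputable def tr (m : ℕ) (x : Set ℕ) : Finset ℕ := (Finset.range m).filter (· ∈ x)

theorem mem_tr {m n : ℕ} {x : Set ℕ} : n ∈ tr m x ↔ n < m ∧ n ∈ x := by
  simp [tr]

/-- the limit of the values of `φ n` at the traces of `x` -/
noncomputable def val (φ : ℕ → Finset ℕ → ℝ) (n : ℕ) (x : Set ℕ) : ℝ :=
  limUnder atTop (fun m => φ n (tr m x))

open Classical in
/-- the values of `φ n` at `x`, with the exceptional values given by `ξ` -/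
noncomputable def wal (φ : ℕ → Finset ℕ → ℝ) (ξ : ℕ → Set ℕ × (ℕ → ℝ)) (n : ℕ) (x : Set ℕ) : ℝ :=
  if h : ∃ k, (ξ k).1 = x then (ξ (Classical.choose h)).2 n else val φ n x

/-- the data treated at one stage -/
abbrev Item : Type :=
  Bool × (ℕ → Finset ℕ → ℝ) × (ℕ → Set ℕ × (ℕ → ℝ)) × Set ℕ × (ℕ → ℕ)

/-- what is added at one stage -/
abbrev Inc : Type := (Bool → Set (Set ℕ)) × Set (ℕ → ℕ)

/-- The requirements on what is added at the stage treating the item `e`, when the families so far
are `C` and the functions so far are `M`. -/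
structure Good (C : Bool → Set (Set ℕ)) (M : Set (ℕ → ℕ)) (i : Bool) (φ : ℕ → Finset ℕ → ℝ)
    (ξ : ℕ → Set ℕ × (ℕ → ℝ)) (Y : Set ℕ) (g : ℕ → ℕ) (t : Inc) : Prop where
  count1 : ∀ b, (t.1 b).Countable
  count2 : t.2.Countable
  mem : g ∈ t.2
  allowed : ∀ b, ∀ x ∈ t.1 b, Allowed (C false ∪ C true) M x
  ad : ∀ b c, ∀ x ∈ t.1 b, ∀ y ∈ t.1 c, (x ≠ y ∨ b ≠ c) → (x ∩ y).Finite
  mad : Y.Infinite → ∃ b, ∃ x ∈ C b ∪ t.1 b, (x ∩ Y).Infinite
  seq : (∃ P : Set ℕ, P.Infinite ∧ (∀ p, Conv P (fun n => φ n p)) ∧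
      ∀ x ∈ C i, Conv P (fun n => wal φ ξ n x)) →
    ∃ Q : Set ℕ, Q.Infinite ∧ (∀ p, Conv Q (fun n => φ n p)) ∧
      (∀ x ∈ C i, Conv Q (fun n => wal φ ξ n x)) ∧
      ((∃ p : Finset ℕ, ∃ ε : ℝ, 0 < ε ∧
        ∀ j, ∃ x ∈ t.1 i, Agr j p x ∧ {n | n ∈ Q ∧ |val φ n x| < ε}.Finite) ∨
       ((∀ x ∈ t.1 i, Conv Q (fun n => val φ n x)) ∧
        ∀ x, Allowed (C false ∪ C true ∪ (t.1 false ∪ t.1 true)) (M ∪ t.2) x →
          Conv Q (fun n => val φ n x)))

theorem Conv.mono {P Q : Set ℕ} {u : ℕ → ℝ} (h : Conv P u) (hQ : Q ⊆ P) : Conv Q u :=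
  fun ε hε => (h ε hε).subset fun _ hn => ⟨hQ hn.1, hn.2⟩

theorem exists_inc0 (C : Bool → Set (Set ℕ)) (M : Set (ℕ → ℕ)) (i : Bool)
    (φ : ℕ → Finset ℕ → ℝ) (ξ : ℕ → Set ℕ × (ℕ → ℝ)) :
    ∃ (D : Bool → Set (Set ℕ)) (N : Set (ℕ → ℕ)), (∀ b, (D b).Countable) ∧ N.Countable ∧
      (∀ b, ∀ x ∈ D b, Allowed (C false ∪ C true) M x) ∧
      (∀ b c, ∀ x ∈ D b, ∀ y ∈ D c, (x ≠ y ∨ b ≠ c) → (x ∩ y).Finite) ∧
      ((∃ P : Set ℕ, P.Infinite ∧ (∀ p, Conv P (fun n => φ n p)) ∧
      ∀ x ∈ C i, Conv P (fun n => wal φ ξ n x)) →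
    ∃ Q : Set ℕ, Q.Infinite ∧ (∀ p, Conv Q (fun n => φ n p)) ∧
      (∀ x ∈ C i, Conv Q (fun n => wal φ ξ n x)) ∧
      ((∃ p : Finset ℕ, ∃ ε : ℝ, 0 < ε ∧
        ∀ j, ∃ x ∈ D i, Agr j p x ∧ {n | n ∈ Q ∧ |val φ n x| < ε}.Finite) ∨
       (D i = ∅ ∧
        ∀ x, Allowed (C false ∪ C true ∪ (D false ∪ D true)) (M ∪ N) x →
          Conv Q (fun n => val φ n x)))) := by
  classical
  by_cases h : ∃ P : Set ℕ, P.Infinite ∧ (∀ p, Conv P (fun n => φ n p)) ∧
      ∀ x ∈ C i, Conv P (fun n => wal φ ξ n x)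
  swap
  · refine ⟨fun _ => ∅, ∅, fun _ => countable_empty, countable_empty, fun b x hx => absurd hx
      (notMem_empty x), fun b c x hx => absurd hx (notMem_empty x), fun h' => absurd h' h⟩
  obtain ⟨P, hP, hP1, hP2⟩ := h
  obtain ⟨Q, D, N, hQ, hQP, hD, hN, hall, hAD, hKS⟩ :=
    dichotomy (C false ∪ C true) M (val φ) P hP
  have key : ∀ c : Bool, (∀ b, ((fun b => if b = c then D else ∅ : Bool → Set (Set ℕ)) b).Countable)
      ∧ (∀ b, ∀ x ∈ (fun b => if b = c then D else ∅ : Bool → Set (Set ℕ)) b,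
        Allowed (C false ∪ C true) M x) ∧
      (∀ b d, ∀ x ∈ (fun b => if b = c then D else ∅ : Bool → Set (Set ℕ)) b,
        ∀ y ∈ (fun b => if b = c then D else ∅ : Bool → Set (Set ℕ)) d,
        (x ≠ y ∨ b ≠ d) → (x ∩ y).Finite) := by
    intro c
    refine ⟨fun b => ?_, fun b x hx => ?_, fun b d x hx y hy hxy => ?_⟩
    · by_cases hb : b = c
      · simpa [hb] using hD
      · simp [hb]
    · by_cases hb : b = c
      · simp only [hb, if_true] at hx
        exact hall x hx
      · simp [hb] at hx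
    · by_cases hb : b = c
      · by_cases hd : d = c
        · simp only [hb, hd, if_true] at hx hy
          refine hAD x hx y hy ?_
          rcases hxy with h | h
          · exact h
          · exact absurd (hb.trans hd.symm) h
        · simp [hd] at hy
      · simp [hb] at hx
  rcases hKS with hK | hS
  · obtain ⟨k1, k2, k3⟩ := key i
    refine ⟨fun b => if b = i then D else ∅, N, k1, hN, k2, k3, fun _ =>
      ⟨Q, hQ, fun p => (hP1 p).mono hQP, fun x hx => (hP2 x hx).mono hQP, Or.inl ?_⟩⟩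
    simpa using hK
  · obtain ⟨k1, k2, k3⟩ := key (!i)
    refine ⟨fun b => if b = (!i) then D else ∅, N, k1, hN, k2, k3, fun _ =>
      ⟨Q, hQ, fun p => (hP1 p).mono hQP, fun x hx => (hP2 x hx).mono hQP, Or.inr ⟨?_, ?_⟩⟩⟩
    · simp
    · intro x hx
      refine hS x (hx.mono ?_ le_rfl)
      refine union_subset_union_right _ ?_
      cases i
      · exact subset_union_of_subset_right (by simp) _
      · exact subset_union_of_subset_left (by simp) _

theorem exists_inc (C : Bool → Set (Set ℕ)) (M : Set (ℕ → ℕ)) (hM : M.Countable) (i : Bool)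
    (φ : ℕ → Finset ℕ → ℝ) (ξ : ℕ → Set ℕ × (ℕ → ℝ)) (Y : Set ℕ) (g : ℕ → ℕ) :
    ∃ t : Inc, Good C M i φ ξ Y g t := by
  classical
  obtain ⟨D, N, hD, hN, hall, hAD, hseq⟩ := exists_inc0 C M i φ ξ
  by_cases hY : Y.Infinite ∧ ∀ b, ∀ x ∈ C b ∪ D b, (x ∩ Y).Finite
  · obtain ⟨hY1, hY2⟩ := hY
    obtain ⟨x₀, hx₀Y, hx₀, hgap⟩ := exists_gaps Y hY1 (M ∪ N) (hM.union hN)
    have hx₀fin : ∀ b, ∀ x ∈ C b ∪ D b, (x₀ ∩ x).Finite := fun b x hx => by
      rw [inter_comm]
      exact (hY2 b x hx).subset (inter_subset_inter_right _ hx₀Y)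
    have hx₀all : Allowed (C false ∪ C true ∪ (D false ∪ D true)) (M ∪ N) x₀ := by
      refine ⟨hx₀, ?_, hgap⟩
      rintro a ((ha | ha) | (ha | ha))
      · exact hx₀fin false a (Or.inl ha)
      · exact hx₀fin true a (Or.inl ha)
      · exact hx₀fin false a (Or.inr ha)
      · exact hx₀fin true a (Or.inr ha)
    refine ⟨(fun b => if b = false then insert x₀ (D b) else D b, insert g N), ?_, ?_, ?_, ?_, ?_,
      ?_, ?_⟩
    · intro b
      cases b
      · simpa using (hD false).insert x₀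
      · simpa using hD true
    · exact hN.insert g
    · exact mem_insert _ _
    · intro b x hx
      cases b
      · simp only [if_true] at hx
        rcases hx with rfl | hx
        · exact hx₀all.mono subset_union_left subset_union_left
        · exact hall false x hx
      · exact hall true x (by simpa using hx)
    · intro b c x hx y hy hxy
      have hx' : (x = x₀ ∧ b = false) ∨ x ∈ D b := by
        cases b
        · simp only [if_true] at hx
          rcases hx with rfl | hx
          · exact Or.inl ⟨rfl, rfl⟩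
          · exact Or.inr hx
        · exact Or.inr (by simpa using hx)
      have hy' : (y = x₀ ∧ c = false) ∨ y ∈ D c := by
        cases c
        · simp only [if_true] at hy
          rcases hy with rfl | hy
          · exact Or.inl ⟨rfl, rfl⟩
          · exact Or.inr hy
        · exact Or.inr (by simpa using hy)
      rcases hx' with ⟨rfl, rfl⟩ | hx'
      · rcases hy' with ⟨rfl, rfl⟩ | hy'
        · simp at hxy
        · exact hx₀fin c y (Or.inr hy')
      · rcases hy' with ⟨rfl, rfl⟩ | hy'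
        · rw [inter_comm]; exact hx₀fin b x (Or.inr hx')
        · exact hAD b c x hx' y hy' hxy
    · intro _
      refine ⟨false, x₀, Or.inr (by simp), ?_⟩
      rw [inter_eq_self_of_subset_left hx₀Y]
      exact hx₀
    · intro hP
      obtain ⟨Q, hQ, hQ1, hQ2, hQ3⟩ := hseq hP
      refine ⟨Q, hQ, hQ1, hQ2, ?_⟩
      rcases hQ3 with ⟨p, ε, hε, hK⟩ | ⟨hD0, hS⟩
      · refine Or.inl ⟨p, ε, hε, fun j => ?_⟩
        obtain ⟨x, hx, hx2⟩ := hK j
        refine ⟨x, ?_, hx2⟩
        cases i
        · simp only [if_true]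
          exact Or.inr hx
        · simpa using hx
      · refine Or.inr ⟨fun x hx => ?_, fun x hx => ?_⟩
        · have hx' : x = x₀ := by
            cases i
            · simp only [if_true] at hx
              rcases hx with rfl | hx
              · rfl
              · rw [hD0] at hx; exact absurd hx (notMem_empty x)
            · simp only [Bool.true_eq_false, if_false] at hx
              rw [hD0] at hx; exact absurd hx (notMem_empty x)
          rw [hx']
          exact hS x₀ hx₀all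
        · refine hS x (hx.mono ?_ ?_)
          · refine union_subset_union_right _ (union_subset_union ?_ ?_)
            · simp
            · simp
          · exact union_subset_union_right _ (subset_insert _ _)
  · refine ⟨(D, insert g N), hD, hN.insert g, mem_insert _ _, hall, hAD, fun hYi => ?_, fun hP => ?_⟩
    · push Not at hY
      obtain ⟨b, x, hx, hx2⟩ := hY hYi
      exact ⟨b, x, hx, hx2⟩
    · obtain ⟨Q, hQ, hQ1, hQ2, hQ3⟩ := hseq hP
      refine ⟨Q, hQ, hQ1, hQ2, ?_⟩
      rcases hQ3 with hK | ⟨hD0, hS⟩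
      · exact Or.inl hK
      · refine Or.inr ⟨fun x hx => ?_, fun x hx => hS x (hx.mono le_rfl ?_)⟩
        · simp only [hD0] at hx
          exact absurd hx (notMem_empty x)
        · exact union_subset_union_right _ (subset_insert _ _)

/-! ### The recursion -/

theorem exists_rec {I : Type} [LinearOrder I] [WellFoundedLT I] {T : Type}
    (R : (a : I) → ((b : I) → b < a → T) → T → Prop) (h : ∀ a f, ∃ t, R a f t) :
    ∃ D : I → T, ∀ a, R a (fun b _ => D b) (D a) := by
  classical
  let F : (a : I) → ((b : I) → b < a → T) → T := fun a f => Classical.choose (h a f)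
  have hF : ∀ a f, R a f (F a f) := fun a f => Classical.choose_spec (h a f)
  let wf : WellFounded (fun x y : I => x < y) := wellFounded_lt
  refine ⟨wf.fix F, fun a => ?_⟩
  have h1 := hF a (fun b _ => wf.fix F b)
  have h2 : wf.fix F a = F a (fun b _ => wf.fix F b) := wf.fix_eq F a
  rw [h2]
  exact h1

/-- the `k`-th column -/
def col (k : ℕ) : Set ℕ := {n | (Nat.unpair n).1 = k}

theorem col_infinite (k : ℕ) : (col k).Infinite := by
  refine (infinite_range_of_injective (f := fun j => Nat.pair k j) ?_).mono ?_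
  · intro a b hab
    have := congrArg (fun n => (Nat.unpair n).2) hab
    simpa using this
  · rintro _ ⟨j, rfl⟩
    simp [col]

theorem col_injective : Function.Injective col := by
  intro k l hkl
  have h : Nat.pair k 0 ∈ col k := by simp [col]
  rw [hkl] at h
  simpa [col] using h

theorem col_inter {k l : ℕ} (h : k ≠ l) : col k ∩ col l = ∅ := by
  ext n
  simp only [col, mem_inter_iff, mem_ofPred_eq, mem_empty_iff_false, iff_false, not_and]
  intro h1 h2
  exact h (h1.symm.trans h2)

/-- the sets put in the families before the recursion starts -/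
def seed (b : Bool) : Set (Set ℕ) := if b = false then range col else ∅

theorem seed_countable (b : Bool) : (seed b).Countable := by
  unfold seed
  split
  · exact countable_range col
  · exact countable_empty

/-- the sets of side `b` available before stage `a` -/
def cum (D : Om → Inc) (a : Om) (b : Bool) : Set (Set ℕ) :=
  seed b ∪ ⋃ c : {c : Om // c < a}, (D c.1).1 b

/-- the functions available before stage `a` -/
def cumM (D : Om → Inc) (a : Om) : Set (ℕ → ℕ) := ⋃ c : {c : Om // c < a}, (D c.1).2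

theorem exists_enum (hCH : (ℵ₁ : Cardinal.{0}) = 𝔠) :
    ∃ e : Om → Item, ∀ (t : Item) (a : Om), ∃ b, a ≤ b ∧ e b = t := by
  have h1 : #Om = ℵ₁ := by simp [Om]
  have hcard : #(Item × Om) ≤ #Om := by
    have h2 : #(Item × Om) = #Item * #Om := by simp
    rw [h2, h1, hCH]
    simp [Item, Cardinal.mk_real]
  obtain ⟨e', he'⟩ : ∃ e' : Om → Item × Om, Function.Surjective e' := by
    obtain ⟨f⟩ := Cardinal.le_def _ _ |>.1 hcard
    have : Nonempty (Item × Om) := ⟨⟨⟨false, fun _ _ => 0, fun _ => (∅, fun _ => 0), ∅,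
      fun _ => 0⟩, Classical.arbitrary Om⟩⟩
    exact ⟨_, Function.invFun_surjective f.injective⟩
  refine ⟨fun a => (e' a).1, fun t a => ?_⟩
  by_contra hcon
  push Not at hcon
  choose s hs using fun o : Om => he' (t, o)
  have hsa : ∀ o, s o < a := by
    intro o
    by_contra h
    exact hcon (s o) (not_lt.1 h) (by rw [hs])
  have hinj : Function.Injective (fun o => (⟨s o, hsa o⟩ : {b : Om // b < a})) := by
    intro o o' h
    have h3 : s o = s o' := congrArg Subtype.val h
    have h4 := hs o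
    rw [h3, hs o'] at h4
    exact (congrArg Prod.snd h4).symm
  have := countable_Iio a
  have hc : Countable Om := hinj.countable
  have h5 : #Om ≤ ℵ₀ := Cardinal.mk_le_aleph0_iff.2 hc
  rw [h1] at h5
  exact absurd h5 (not_le.2 Cardinal.aleph0_lt_aleph_one)

theorem exists_stages (hCH : (ℵ₁ : Cardinal.{0}) = 𝔠) :
    ∃ (e : Om → Item) (D : Om → Inc), (∀ (t : Item) (a : Om), ∃ b, a ≤ b ∧ e b = t) ∧
      (∀ a b, (cum D a b).Countable) ∧
      ∀ a, Good (cum D a) (cumM D a) (e a).1 (e a).2.1 (e a).2.2.1 (e a).2.2.2.1 (e a).2.2.2.2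
        (D a) := by
  obtain ⟨e, he⟩ := exists_enum hCH
  obtain ⟨D, hD⟩ := exists_rec (I := Om) (T := Inc)
    (fun a f t => (⋃ c : {c : Om // c < a}, (f c.1 c.2).2).Countable →
      Good (fun b => seed b ∪ ⋃ c : {c : Om // c < a}, (f c.1 c.2).1 b)
        (⋃ c : {c : Om // c < a}, (f c.1 c.2).2)
        (e a).1 (e a).2.1 (e a).2.2.1 (e a).2.2.2.1 (e a).2.2.2.2 t) (by
    intro a f
    by_cases h : (⋃ c : {c : Om // c < a}, (f c.1 c.2).2).Countable
    · obtain ⟨t, ht⟩ := exists_inc (fun b => seed b ∪ ⋃ c : {c : Om // c < a}, (f c.1 c.2).1 b)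
        (⋃ c : {c : Om // c < a}, (f c.1 c.2).2) h
        (e a).1 (e a).2.1 (e a).2.2.1 (e a).2.2.2.1 (e a).2.2.2.2
      exact ⟨t, fun _ => ht⟩
    · exact ⟨(fun _ => ∅, ∅), fun h' => absurd h' h⟩)
  have hgood : ∀ a, Good (cum D a) (cumM D a) (e a).1 (e a).2.1 (e a).2.2.1 (e a).2.2.2.1
      (e a).2.2.2.2 (D a) := by
    intro a
    induction a using WellFoundedLT.induction with
    | ind a ih =>
      refine hD a ?_
      have := countable_Iio a
      exact countable_iUnion fun c => (ih c.1 c.2).count2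
  refine ⟨e, D, he, fun a b => ?_, hgood⟩
  have := countable_Iio a
  exact (seed_countable b).union (countable_iUnion fun c => (hgood c.1).count1 b)

/-- The families. -/
theorem exists_families (hCH : (ℵ₁ : Cardinal.{0}) = 𝔠) :
    ∃ A : Bool → Set (Set ℕ),
      (∀ i, ∀ x ∈ A i, x.Infinite) ∧
      (∀ i j, ∀ x ∈ A i, ∀ y ∈ A j, (x ≠ y ∨ i ≠ j) → (x ∩ y).Finite) ∧
      (∀ Y : Set ℕ, Y.Infinite → ∃ i, ∃ x ∈ A i, (x ∩ Y).Infinite) ∧
      (A false).Infinite ∧
      (∀ (g : ℕ → ℕ) (i : Bool), {x | x ∈ A i ∧ ¬ Gap g x}.Countable) ∧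
      (∀ (i : Bool) (φ : ℕ → Finset ℕ → ℝ) (ψ : ℕ → Set ℕ → ℝ) (E : Set (Set ℕ)),
        E ⊆ A i → E.Countable →
        (∀ x ∈ A i, x ∉ E → ∀ n, Tendsto (fun m => φ n (tr m x)) atTop (𝓝 (ψ n x))) →
        (∀ S ⊆ A i, S.Countable → ∃ P : Set ℕ, P.Infinite ∧ (∀ p, Conv P (fun n => φ n p)) ∧
          ∀ x ∈ S, Conv P (fun n => ψ n x)) →
        ∃ Q : Set ℕ, Q.Infinite ∧ (∀ p, Conv Q (fun n => φ n p)) ∧
          ((∃ p : Finset ℕ, ∃ ε : ℝ, 0 < ε ∧
            ∀ j, ∃ x ∈ A i, Agr j p x ∧ {n | n ∈ Q ∧ |ψ n x| < ε}.Finite) ∨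
          ∀ x ∈ A i, Conv Q (fun n => ψ n x))) := by
  classical
  obtain ⟨e, D, he, hcount, hgood⟩ := exists_stages hCH
  let A : Bool → Set (Set ℕ) := fun i => seed i ∪ ⋃ a, (D a).1 i
  have hcumA : ∀ a i, cum D a i ⊆ A i := by
    intro a i
    refine union_subset_union_right _ ?_
    exact iUnion_subset fun c => subset_iUnion (fun a => (D a).1 i) c.1
  have hcumcum : ∀ a i, cum D a i ⊆ cum D a false ∪ cum D a true := by
    intro a i
    cases i
    · exact subset_union_left
    · exact subset_union_right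
  have hDcum : ∀ c a i, c < a → (D c).1 i ⊆ cum D a i := fun c a i h =>
    subset_union_of_subset_right (subset_iUnion (fun c : {c : Om // c < a} => (D c.1).1 i) ⟨c, h⟩) _
  have hseedcum : ∀ a i, seed i ⊆ cum D a i := fun a i => subset_union_left
  have hDall : ∀ a i, ∀ x ∈ (D a).1 i, ∀ j, ∀ y ∈ cum D a j, (x ∩ y).Finite :=
    fun a i x hx j y hy => ((hgood a).allowed i x hx).2.1 y (hcumcum a j hy)
  have hDnot : ∀ a i, ∀ x ∈ (D a).1 i, ∀ j, x ∉ cum D a j := fun a i x hx j h =>
    ((hgood a).allowed i x hx).notMem (hcumcum a j h)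
  have hcumMmono : ∀ a c, a < c → (D a).2 ⊆ cumM D c := fun a c h =>
    subset_iUnion (fun d : {d : Om // d < c} => (D d.1).2) ⟨a, h⟩
  have hseedinf : ∀ i, ∀ x ∈ seed i, x.Infinite := by
    intro i x hx
    unfold seed at hx
    split at hx
    · obtain ⟨k, rfl⟩ := hx
      exact col_infinite k
    · exact absurd hx (notMem_empty x)
  refine ⟨A, ?_, ?_, ?_, ?_, ?_, ?_⟩
  · rintro i x (hx | hx)
    · exact hseedinf i x hx
    · obtain ⟨a, ha⟩ := mem_iUnion.1 hx
      exact ((hgood a).allowed i x ha).1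
  · rintro i j x (hx | hx) y (hy | hy) hxy
    · unfold seed at hx hy
      split at hx
      · rename_i hi
        split at hy
        · rename_i hj
          obtain ⟨k, rfl⟩ := hx
          obtain ⟨l, rfl⟩ := hy
          have hkl : k ≠ l := by
            rintro rfl
            rcases hxy with h | h
            · exact h rfl
            · exact h (hi.trans hj.symm)
          rw [col_inter hkl]
          exact finite_empty
        · exact absurd hy (notMem_empty y)
      · exact absurd hx (notMem_empty x)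
    · obtain ⟨a, ha⟩ := mem_iUnion.1 hy
      rw [inter_comm]
      exact hDall a j y ha i x (hseedcum a i hx)
    · obtain ⟨a, ha⟩ := mem_iUnion.1 hx
      exact hDall a i x ha j y (hseedcum a j hy)
    · obtain ⟨a, ha⟩ := mem_iUnion.1 hx
      obtain ⟨c, hc⟩ := mem_iUnion.1 hy
      rcases lt_trichotomy a c with h | h | h
      · rw [inter_comm]
        exact hDall c j y hc i x (hDcum a c i h ha)
      · subst h
        exact (hgood a).ad i j x ha y hc hxy
      · exact hDall a i x ha j y (hDcum c a j h hc)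
  · intro Y hY
    obtain ⟨a, -, ha⟩ := he (false, fun _ _ => 0, fun _ => (∅, fun _ => 0), Y, fun _ => 0)
      (Classical.arbitrary Om)
    have h := (hgood a).mad
    rw [ha] at h
    obtain ⟨b, x, hx, hx2⟩ := h hY
    refine ⟨b, x, ?_, hx2⟩
    rcases hx with hx | hx
    · exact hcumA a b hx
    · exact Or.inr (mem_iUnion.2 ⟨a, hx⟩)
  · refine (infinite_range_of_injective col_injective).mono ?_
    intro x hx
    exact Or.inl (by simpa [seed] using hx)
  · intro g i
    obtain ⟨a, -, ha⟩ := he (false, fun _ _ => 0, fun _ => (∅, fun _ => 0), ∅, g)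
      (Classical.arbitrary Om)
    have hg : g ∈ (D a).2 := by
      have := (hgood a).mem
      rw [ha] at this
      exact this
    refine ((hcount a i).union ((hgood a).count1 i)).mono ?_
    rintro x ⟨hx | hx, hxg⟩
    · exact Or.inl (hseedcum a i hx)
    · obtain ⟨c, hc⟩ := mem_iUnion.1 hx
      rcases lt_trichotomy c a with h | h | h
      · exact Or.inl (hDcum c a i h hc)
      · subst h; exact Or.inr hc
      · exact absurd (((hgood c).allowed i x hc).2.2 g (hcumMmono a c h hg)) hxg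
  · intro i φ ψ E hEA hE hlim hP
    -- the enumeration of the exceptional set
    obtain ⟨ex, hex⟩ := (hE.insert (∅ : Set ℕ)).exists_eq_range ⟨∅, mem_insert _ _⟩
    -- a bound for the exceptional set
    have hbound : ∃ a₀ : Om, E ⊆ cum D a₀ i := by
      have hst : ∀ n, ∃ a : Om, ex n ∈ E → ex n ∈ cum D a i := by
        intro n
        by_cases hn : ex n ∈ E
        · rcases hEA hn with h | h
          · exact ⟨Classical.arbitrary Om, fun _ => Or.inl h⟩
          · obtain ⟨a, ha⟩ := mem_iUnion.1 h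
            obtain ⟨b, hb⟩ := exists_bound (fun _ => a)
            exact ⟨b, fun _ => hDcum a b i (hb 0) ha⟩
        · exact ⟨Classical.arbitrary Om, fun h => absurd h hn⟩
      choose st hst using hst
      obtain ⟨a₀, ha₀⟩ := exists_bound st
      refine ⟨a₀, fun x hx => ?_⟩
      have hx' : x ∈ range ex := by
        rw [← hex]; exact mem_insert_of_mem _ hx
      obtain ⟨n, rfl⟩ := hx'
      rcases hst n hx with h | h
      · exact Or.inl h
      · obtain ⟨c, hc⟩ := mem_iUnion.1 h
        exact hDcum c.1 a₀ i (c.2.trans (ha₀ n)) hc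
    obtain ⟨a₀, ha₀⟩ := hbound
    obtain ⟨a, haa, ha⟩ := he (i, φ, fun k => (ex k, fun n => ψ n (ex k)), ∅, fun _ => 0) a₀
    have hEa : E ⊆ cum D a i := by
      intro x hx
      rcases ha₀ hx with h | h
      · exact Or.inl h
      · obtain ⟨c, hc⟩ := mem_iUnion.1 h
        exact hDcum c.1 a i (c.2.trans_le haa) hc
    have hinfA : ∀ x ∈ A i, x.Infinite := by
      rintro x (hx | hx)
      · exact hseedinf i x hx
      · obtain ⟨a, ha⟩ := mem_iUnion.1 hx
        exact ((hgood a).allowed i x ha).1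
    have hval : ∀ x ∈ A i, x ∉ E → ∀ n, val φ n x = ψ n x := fun x hx hxE n =>
      (hlim x hx hxE n).limUnder_eq
    have hwal : ∀ x ∈ A i, ∀ n, wal φ (fun k => (ex k, fun n => ψ n (ex k))) n x = ψ n x := by
      intro x hx n
      unfold wal
      split
      · rename_i h
        have h2 := Classical.choose_spec h
        simp only at h2 ⊢
        rw [h2]
      · rename_i h
        refine hval x hx (fun hxE => h ?_) n
        have hx' : x ∈ range ex := by
          rw [← hex]; exact mem_insert_of_mem _ hxE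
        exact hx'
    have hseq := (hgood a).seq
    rw [ha] at hseq
    simp only at hseq
    obtain ⟨P, hP1, hP2, hP3⟩ := hP (cum D a i) (hcumA a i) (hcount a i)
    obtain ⟨Q, hQ, hQ1, hQ2, hQ3⟩ := hseq ⟨P, hP1, hP2, fun x hx => by
      simp only [hwal x (hcumA a i hx)]
      exact hP3 x hx⟩
    refine ⟨Q, hQ, hQ1, ?_⟩
    have hDA : ∀ c, (D c).1 i ⊆ A i := fun c =>
      subset_union_of_subset_right (subset_iUnion (fun a => (D a).1 i) c) _
    have hDE : ∀ c, a ≤ c → ∀ x ∈ (D c).1 i, x ∉ E := by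
      intro c hc x hx hxE
      refine hDnot c i x hx i ?_
      rcases hEa hxE with h | h
      · exact Or.inl h
      · obtain ⟨d, hd⟩ := mem_iUnion.1 h
        exact hDcum d.1 c i (d.2.trans_le hc) hd
    rcases hQ3 with ⟨p, ε, hε, hK⟩ | ⟨hS1, hS2⟩
    · refine Or.inl ⟨p, ε, hε, fun j => ?_⟩
      obtain ⟨x, hx, hx1, hx2⟩ := hK j
      refine ⟨x, hDA a hx, hx1, ?_⟩
      simpa only [hval x (hDA a hx) (hDE a le_rfl x hx)] using hx2
    · refine Or.inr ?_
      rintro x (hx | hx)
      · have := hQ2 x (hseedcum a i hx)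
        simpa only [hwal x (Or.inl hx)] using this
      · obtain ⟨c, hc⟩ := mem_iUnion.1 hx
        rcases lt_trichotomy c a with h | h | h
        · have := hQ2 x (hDcum c a i h hc)
          simpa only [hwal x (hDA c hc)] using this
        · subst h
          have := hS1 x hc
          simpa only [hval x (hDA c hc) (hDE c le_rfl x hc)] using this
        · have hall := (hgood c).allowed i x hc
          have hmon : Allowed (cum D a false ∪ cum D a true ∪ ((D a).1 false ∪ (D a).1 true))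
              (cumM D a ∪ (D a).2) x := by
            refine hall.mono ?_ ?_
            · have hcc : ∀ j, cum D a j ⊆ cum D c j := by
                intro j
                refine union_subset_union_right _ ?_
                exact iUnion_subset fun d =>
                  subset_iUnion (fun d : {d : Om // d < c} => (D d.1).1 j) ⟨d.1, d.2.trans h⟩
              refine union_subset (union_subset_union (hcc false) (hcc true)) ?_
              exact union_subset_union (hDcum a c false h) (hDcum a c true h)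
            · refine union_subset ?_ (hcumMmono a c h)
              exact iUnion_subset fun d => hcumMmono d.1 c (d.2.trans h)
          have := hS2 x hmon
          simpa only [hval x (hDA c hc) (hDE c h.le x hc)] using this

end Pool.Agent.Helper901.GrothComb
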