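import Mathlib

/-!
# Grothendieck spaces: definitions and a criterion

A first countable space is Grothendieck as soon as the compact subspaces of its function space are
Fréchet-Urysohn.
-/

set_option autoImplicit false

open Set Filter Topology

namespace Pool.Agent.Helper901.Groth

/-- `A` is countably compact in `Z`: every infinite `B ⊆ A` has an accumulation point in `Z`. -/
def CountablyCompactIn {Z : Type} [TopologicalSpace Z] (A : Set Z) : Prop :=
  ∀ B ⊆ A, B.Infinite → ∃ y : Z, AccPt y (𝓟 B)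

/-- `Z` is a g-space: the closure of every set countably compact in `Z` is compact. -/
def GSpace (Z : Type) [TopologicalSpace Z] : Prop :=
  ∀ A : Set Z, CountablyCompactIn A → IsCompact (closure A)

/-- `C_p(X)`: the continuous real functions on `X`, with the topology of pointwise convergence
(the subspace topology of the product `X → ℝ`). -/
abbrev Cp (X : Type) [TopologicalSpace X] : Type := {f : X → ℝ // Continuous f}

/-- `X` is Grothendieck: every subspace of `C_p(X)` is a g-space. -/
def Grothendieck (X : Type) [TopologicalSpace X] : Prop := ∀ Z : Set (Cp X), GSpace Z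

theorem seq_cluster {Z : Type} [TopologicalSpace Z] [T1Space Z] {A : Set Z}
    (hA : CountablyCompactIn A) (a : ℕ → Z) (ha : ∀ n, a n ∈ A) : ∃ y, MapClusterPt y atTop a := by
  by_cases hfin : (range a).Finite
  · -- some value is taken infinitely often
    obtain ⟨y, hy⟩ : ∃ y, ∃ᶠ n in atTop, a n = y := by
      by_contra hcon
      push Not at hcon
      have h1 : ∀ y ∈ range a, ∀ᶠ n in atTop, a n ≠ y := fun y _ => by
        simpa using hcon y
      have h2 := (hfin.eventually_all).2 h1
      obtain ⟨n, hn⟩ := h2.exists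
      exact hn (a n) ⟨n, rfl⟩ rfl
    refine ⟨y, mapClusterPt_iff_frequently.2 fun U hU => hy.mono fun n hn => ?_⟩
    rw [hn]
    exact mem_of_mem_nhds hU
  · obtain ⟨y, hy⟩ := hA (range a) (range_subset_iff.2 ha) hfin
    refine ⟨y, mapClusterPt_iff_frequently.2 fun U hU => frequently_atTop.2 fun N => ?_⟩
    by_contra hcon
    push Not at hcon
    have hF : (a '' (Iio N) \ {y}).Finite := ((finite_Iio N).image a).subset sdiff_subset
    have hU' : U ∩ (a '' (Iio N) \ {y})ᶜ ∈ 𝓝 y :=
      inter_mem hU (hF.isClosed.isOpen_compl.mem_nhds fun h => h.2 rfl)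
    obtain ⟨z, ⟨⟨hzU, hz1⟩, ⟨n, rfl⟩⟩, hz2⟩ := (accPt_iff_nhds.1 hy) _ hU'
    by_cases hn : n < N
    · exact hz1 ⟨⟨n, hn, rfl⟩, hz2⟩
    · exact hcon n (not_lt.1 hn) hzU

/-- closeness on a finite set is a neighbourhood -/
theorem near_mem_nhds {X : Type} (f : X → ℝ) (s : Finset X) {ε : ℝ} (hε : 0 < ε) :
    {g : X → ℝ | ∀ x ∈ s, |g x - f x| < ε} ∈ 𝓝 f := by
  have h : {g : X → ℝ | ∀ x ∈ s, |g x - f x| < ε} = ⋂ x ∈ s, {g : X → ℝ | |g x - f x| < ε} := by
    ext g; simp
  rw [h]
  refine (Filter.biInter_finset_mem s).2 fun x _ => ?_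
  have hc : Continuous fun g : X → ℝ => |g x - f x| :=
    ((continuous_apply x).sub continuous_const).abs
  exact (isOpen_lt hc continuous_const).mem_nhds (by simpa using hε)

/-- an approximating sequence on a countable set of points -/
theorem exists_approx {X : Type} {B : Set (X → ℝ)} {f : X → ℝ} (hf : f ∈ closure B) (s : ℕ → X) :
    ∃ b : ℕ → X → ℝ, (∀ n, b n ∈ B) ∧ ∀ k, Tendsto (fun n => b n (s k)) atTop (𝓝 (f (s k))) := by
  classical
  have h : ∀ n : ℕ, ∃ b ∈ B, ∀ k ≤ n, |b (s k) - f (s k)| < 1 / (n + 1 : ℝ) := by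
    intro n
    have hε : (0 : ℝ) < 1 / (n + 1 : ℝ) := by positivity
    obtain ⟨b, hb1, hb2⟩ := mem_closure_iff_nhds.1 hf _
      (near_mem_nhds f ((Finset.range (n + 1)).image s) hε)
    refine ⟨b, hb2, fun k hk => hb1 (s k) ?_⟩
    exact Finset.mem_image_of_mem s (Finset.mem_range.2 (by omega))
  choose b hb1 hb2 using h
  refine ⟨b, hb1, fun k => ?_⟩
  rw [tendsto_iff_dist_tendsto_zero]
  refine squeeze_zero' (Eventually.of_forall fun n => dist_nonneg) ?_
    tendsto_one_div_add_atTop_nhds_zero_nat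
  filter_upwards [eventually_ge_atTop k] with n hn
  rw [Real.dist_eq]
  exact (hb2 n k hn).le

theorem cluster_eq {Z : Type} [TopologicalSpace Z] {y : Z} {l : Filter ℕ} {a : ℕ → Z}
    (h : MapClusterPt y l a) {φ : Z → ℝ} (hφ : Continuous φ) {c : ℝ}
    (hc : Tendsto (fun n => φ (a n)) l (𝓝 c)) : φ y = c := by
  have h1 : MapClusterPt (φ y) l (φ ∘ a) := h.continuousAt_comp hφ.continuousAt
  exact tendsto_nhds_unique_of_frequently_eq_aux h1 hc
where
  tendsto_nhds_unique_of_frequently_eq_aux {x c : ℝ} {l : Filter ℕ} {u : ℕ → ℝ}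
      (h : MapClusterPt x l u) (hc : Tendsto u l (𝓝 c)) : x = c := by
    by_contra hne
    obtain ⟨U, V, hU, hV, hxU, hcV, hd⟩ := t2_separation hne
    have h1 := mapClusterPt_iff_frequently.1 h U (hU.mem_nhds hxU)
    have h2 := hc (hV.mem_nhds hcV)
    obtain ⟨n, hn1, hn2⟩ := (h1.and_eventually h2).exists
    exact (disjoint_left.1 hd) hn1 hn2

/-- The criterion. -/
theorem grothendieck_of_compact_frechet (X : Type) [TopologicalSpace X] [SequentialSpace X]
    (hX : ∀ K : Set (Cp X), IsCompact K → ∀ B ⊆ K, ∀ f ∈ closure B,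
      ∃ u : ℕ → Cp X, (∀ n, u n ∈ B) ∧ Tendsto u atTop (𝓝 f)) : Grothendieck X := by
  intro Z A hA
  let ev : Z → X → ℝ := fun z => z.1.1
  have hev : Continuous ev := continuous_subtype_val.comp continuous_subtype_val
  have hevx : ∀ x, Continuous fun z : Z => ev z x := fun x => (continuous_apply x).comp hev
  let A' : Set (X → ℝ) := ev '' A
  -- bounded
  have hbdd : ∀ x, ∃ R : ℝ, ∀ a ∈ A', |a x| ≤ R := by
    intro x
    by_contra hcon
    push Not at hcon
    have h1 : ∀ n : ℕ, ∃ a : Z, a ∈ A ∧ (n : ℝ) < |ev a x| := by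
      intro n
      obtain ⟨_, ⟨a, ha, rfl⟩, h⟩ := hcon n
      exact ⟨a, ha, h⟩
    choose a ha1 ha2 using h1
    obtain ⟨y, hy⟩ := seq_cluster hA a ha1
    have hc : Continuous fun z : Z => |ev z x| := (hevx x).abs
    have hU : {z : Z | |ev z x| < |ev y x| + 1} ∈ 𝓝 y :=
      (isOpen_lt hc continuous_const).mem_nhds (by simp)
    obtain ⟨N, hN⟩ := exists_nat_gt (|ev y x| + 1)
    obtain ⟨n, hn, hn2⟩ := frequently_atTop.1 (mapClusterPt_iff_frequently.1 hy _ hU) N
    have h3 := ha2 n
    have h4 : (N : ℝ) ≤ n := by exact_mod_cast hn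
    simp only [mem_ofPred_eq] at hn2
    linarith
  choose R hR using hbdd
  -- the compact closure
  let K' : Set (X → ℝ) := closure A'
  have hK' : IsCompact K' := by
    have hsub : A' ⊆ Set.pi univ (fun x => Icc (-R x) (R x)) := by
      intro a ha x _
      exact abs_le.1 (hR x a ha)
    have hcpt : IsCompact (Set.pi univ (fun x => Icc (-R x) (R x))) :=
      isCompact_univ_pi fun x => isCompact_Icc
    exact hcpt.of_isClosed_subset isClosed_closure
      (closure_minimal hsub hcpt.isClosed)
  -- its members are continuous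
  have hcont : ∀ f ∈ K', Continuous f := by
    intro f hf
    refine continuous_iff_seqContinuous.2 fun x p hx => ?_
    obtain ⟨b, hb1, hb2⟩ := exists_approx hf (fun k => Nat.casesOn k p x)
    choose a ha1 ha2 using hb1
    obtain ⟨y, hy⟩ := seq_cluster hA a ha1
    have hys : ∀ k : ℕ, ev y (Nat.casesOn k p x) = f (Nat.casesOn k p x) := by
      intro k
      refine cluster_eq hy (hevx _) ?_
      refine (hb2 k).congr fun n => ?_
      rw [← ha2 n]
    have h1 : ∀ k, f (x k) = ev y (x k) := fun k => (hys (k + 1)).symm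
    have h2 : f p = ev y p := (hys 0).symm
    have h3 : Tendsto (fun k => ev y (x k)) atTop (𝓝 (ev y p)) :=
      (y.1.2.tendsto p).comp hx
    rw [h2]
    exact h3.congr fun k => (h1 k).symm
  let K : Set (Cp X) := Subtype.val ⁻¹' K'
  have hind : IsInducing (Subtype.val : Cp X → X → ℝ) := IsInducing.subtypeVal
  have hKimg : Subtype.val '' K = K' := by
    refine Subset.antisymm (image_preimage_subset _ _) fun f hf => ?_
    exact ⟨⟨f, hcont f hf⟩, hf, rfl⟩
  have hK : IsCompact K := by
    rw [hind.isCompact_iff, hKimg]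
    exact hK'
  let B : Set (Cp X) := Subtype.val '' A
  have hBA : (Subtype.val '' B : Set (X → ℝ)) = A' := by
    rw [image_image]
  have hBK : B ⊆ K := by
    rintro _ ⟨a, ha, rfl⟩
    exact subset_closure ⟨a, ha, rfl⟩
  have hclB : closure B = K := by
    rw [hind.closure_eq_preimage_closure_image, hBA]
  have hKZ : K ⊆ Z := by
    intro f hf
    rw [← hclB] at hf
    obtain ⟨u, hu1, hu2⟩ := hX K hK B hBK f hf
    choose a ha1 ha2 using hu1
    obtain ⟨y, hy⟩ := seq_cluster hA a ha1
    have hyf : (y : Cp X) = f := by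
      refine Subtype.ext (funext fun x => ?_)
      refine cluster_eq hy (hevx x) ?_
      have h1 : Tendsto (fun n => (u n).1 x) atTop (𝓝 (f.1 x)) :=
        (((continuous_apply x).comp continuous_subtype_val).tendsto f).comp hu2
      refine h1.congr fun n => ?_
      rw [← ha2 n]
    rw [← hyf]
    exact y.2
  have hindZ : IsInducing (Subtype.val : Z → Cp X) := IsInducing.subtypeVal
  rw [hindZ.isCompact_iff]
  have himg : Subtype.val '' (closure A) = K := by
    rw [hindZ.closure_eq_preimage_closure_image]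
    change Subtype.val '' (Subtype.val ⁻¹' (closure B)) = K
    rw [hclB]
    refine Subset.antisymm (image_preimage_subset _ _) fun f hf => ?_
    exact ⟨⟨f, hKZ hf⟩, hf, rfl⟩
  rw [himg]
  exact hK

end Pool.Agent.Helper901.Groth
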