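import Mathlib
import Pool.Agent.Helper901.GrothComb
import Pool.Agent.Helper901.GrothGeneral

/-!
# The spaces of the CH counterexample

`Sp A` has as points the finite subsets of `ℕ` and the members of `A`; the members of `A` are
isolated, and a finite set `s` has as neighbourhoods the sets of the points which agree with `s`
below `k`.
-/

set_option autoImplicit false

open Set Filter Topology
open Pool.Agent.Helper901.GrothComb

namespace Pool.Agent.Helper901.Groth

/-- The points: the finite subsets of `ℕ` and the members of the family `A`. -/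
def Sp (A : Set (Set ℕ)) : Type := Finset ℕ ⊕ A

variable {A : Set (Set ℕ)}

/-- The subset of `ℕ` coded by a point. -/
def cc (x : Sp A) : Set ℕ := Sum.elim (fun s : Finset ℕ => (s : Set ℕ)) Subtype.val x

/-- a point coming from a finite set -/
def fin (A : Set (Set ℕ)) (s : Finset ℕ) : Sp A := Sum.inl s

/-- a point coming from a member of the family -/
def mem (A : Set (Set ℕ)) (i : A) : Sp A := Sum.inr i

theorem cc_fin (s : Finset ℕ) : cc (fin A s) = s := rfl

theorem cc_mem (i : A) : cc (mem A i) = i.1 := rfl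

theorem fin_ne_mem (s : Finset ℕ) (i : A) : fin A s ≠ mem A i := Sum.inl_ne_inr

theorem fin_inj {s t : Finset ℕ} (h : fin A s = fin A t) : s = t := Sum.inl_injective h

theorem mem_inj {s t : A} (h : mem A s = mem A t) : s = t := Sum.inr_injective h

theorem sp_cases (x : Sp A) : (∃ s, x = fin A s) ∨ ∃ i, x = mem A i := by
  rcases x with s | i
  · exact Or.inl ⟨s, rfl⟩
  · exact Or.inr ⟨i, rfl⟩

instance : TopologicalSpace (Sp A) where
  IsOpen U := ∀ s, fin A s ∈ U → ∃ k, ∀ x, Agr k s (cc x) → x ∈ U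
  isOpen_univ := fun _ _ => ⟨0, fun _ _ => trivial⟩
  isOpen_inter := fun U V hU hV s hs => by
    obtain ⟨k, hk⟩ := hU s hs.1
    obtain ⟨l, hl⟩ := hV s hs.2
    exact ⟨max k l, fun x hx => ⟨hk x (hx.mono (le_max_left _ _)),
      hl x (hx.mono (le_max_right _ _))⟩⟩
  isOpen_sUnion := fun S hS s hs => by
    obtain ⟨U, hU, hsU⟩ := hs
    obtain ⟨k, hk⟩ := hS U hU s hsU
    exact ⟨k, fun x hx => ⟨U, hU, hk x hx⟩⟩

theorem isOpen_iff (U : Set (Sp A)) :
    IsOpen U ↔ ∀ s, fin A s ∈ U → ∃ k, ∀ x, Agr k s (cc x) → x ∈ U := Iff.rfl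

theorem agree_self (k : ℕ) (s : Finset ℕ) : Agr k s (cc (fin A s)) := fun n _ => by
  rw [cc_fin]; exact Iff.rfl

theorem isOpen_agree (k : ℕ) (s : Finset ℕ) : IsOpen {x : Sp A | Agr k s (cc x)} := by
  intro t ht
  refine ⟨k, fun x hx n hn => (hx n hn).trans ?_⟩
  have := ht n hn
  rw [cc_fin] at this
  exact this

theorem isClosed_agree (k : ℕ) (s : Finset ℕ) : IsClosed {x : Sp A | Agr k s (cc x)} := by
  rw [← isOpen_compl_iff]
  intro t ht
  refine ⟨k, fun x hx h => ht fun n hn => ?_⟩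
  rw [cc_fin]
  exact (hx n hn).symm.trans (h n hn)

theorem isOpen_mem (i : A) : IsOpen {mem A i} := by
  intro t ht
  exact absurd ht (fin_ne_mem t i)

theorem isClosed_mem (hA : ∀ x ∈ A, x.Infinite) (i : A) : IsClosed {mem A i} := by
  rw [← isOpen_compl_iff]
  intro t _
  obtain ⟨n, hn, hnt⟩ := (hA i.1 i.2).exists_notMem_finset t
  refine ⟨n + 1, fun x hx hx' => ?_⟩
  rw [mem_singleton_iff] at hx'
  subst hx'
  exact hnt ((hx n (by omega)).1 hn)

theorem isClosed_fin (s : Finset ℕ) : IsClosed {fin A s} := by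
  rw [← isOpen_compl_iff]
  intro t ht
  have hne : ∃ n, ¬ (n ∈ s ↔ n ∈ t) := by
    by_contra h
    push Not at h
    exact ht (by rw [mem_singleton_iff, Finset.ext h])
  obtain ⟨n, hn⟩ := hne
  refine ⟨n + 1, fun x hx hx' => hn ?_⟩
  rw [mem_singleton_iff] at hx'
  subst hx'
  exact hx n (by omega)

theorem nhds_fin (s : Finset ℕ) :
    (𝓝 (fin A s)).HasBasis (fun _ : ℕ => True) fun k => {x | Agr k s (cc x)} := by
  refine ⟨fun U => ⟨fun hU => ?_, ?_⟩⟩
  · obtain ⟨V, hVU, hV, hs⟩ := mem_nhds_iff.1 hU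
    obtain ⟨k, hk⟩ := hV s hs
    exact ⟨k, trivial, fun x hx => hVU (hk x hx)⟩
  · rintro ⟨k, -, hk⟩
    exact mem_of_superset ((isOpen_agree k s).mem_nhds (agree_self k s)) hk

theorem t35 (hA : ∀ x ∈ A, x.Infinite) : T35Space (Sp A) := by
  have hb : TopologicalSpace.IsTopologicalBasis {s : Set (Sp A) | IsClopen s} := by
    refine TopologicalSpace.isTopologicalBasis_of_isOpen_of_nhds (fun u hu => hu.isOpen) ?_
    intro x U hx hU
    rcases sp_cases x with ⟨s, rfl⟩ | ⟨i, rfl⟩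
    · obtain ⟨k, hk⟩ := hU s hx
      exact ⟨_, ⟨isClosed_agree k s, isOpen_agree k s⟩, agree_self k s, hk⟩
    · exact ⟨{mem A i}, ⟨isClosed_mem hA i, isOpen_mem i⟩, rfl, singleton_subset_iff.2 hx⟩
  have h1 : T1Space (Sp A) := ⟨fun x => by
    rcases sp_cases x with ⟨s, rfl⟩ | ⟨i, rfl⟩
    · exact isClosed_fin s
    · exact isClosed_mem hA i⟩
  have h2 := CompletelyRegularSpace.of_isTopologicalBasis_clopens hb
  exact { (inferInstance : T0Space (Sp A)), h2 with }

theorem firstCountable : FirstCountableTopology (Sp A) := by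
  refine ⟨fun x => ?_⟩
  rcases sp_cases x with ⟨s, rfl⟩ | ⟨i, rfl⟩
  · exact (nhds_fin s).isCountablyGenerated
  · rw [(isOpen_singleton_iff_nhds_eq_pure _).1 (isOpen_mem i)]
    infer_instance

/-! ### Continuous functions are determined by the finite sets, up to a countable set -/

/-- the exceptional set of `f` -/
def exc (f : Sp A → ℝ) : Set (Set ℕ) :=
  {x | ∃ h : x ∈ A, ¬ Tendsto (fun m => f (fin A (tr m x))) atTop (𝓝 (f (mem A ⟨x, h⟩)))}

theorem agr_tr {k m : ℕ} {s : Finset ℕ} {x : Set ℕ} (h : Agr k s x) (hm : k ≤ m) :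
    Agr k s (cc (fin A (tr m x))) := by
  intro n hn
  rw [cc_fin, Finset.mem_coe, mem_tr, ← h n hn]
  exact ⟨fun h => h.2, fun h => ⟨by omega, h⟩⟩

theorem exc_countable (hg : ∀ g : ℕ → ℕ, {x | x ∈ A ∧ ¬ Gap g x}.Countable) {f : Sp A → ℝ}
    (hf : Continuous f) : (exc f).Countable := by
  have h1 : ∀ (l : ℕ) (s : Finset ℕ), ∃ k, ∀ y : Sp A, Agr k s (cc y) →
      |f y - f (fin A s)| < 1 / (l + 1 : ℝ) := by
    intro l s
    have hε : (0 : ℝ) < 1 / (l + 1 : ℝ) := by positivity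
    have h2 : {y : Sp A | |f y - f (fin A s)| < 1 / (l + 1 : ℝ)} ∈ 𝓝 (fin A s) :=
      (isOpen_lt (hf.sub continuous_const).abs continuous_const).mem_nhds (by simpa using hε)
    obtain ⟨k, -, hk⟩ := (nhds_fin s).mem_iff.1 h2
    exact ⟨k, fun y hy => hk hy⟩
  choose κ hκ using h1
  let g : ℕ → ℕ → ℕ := fun l n => (Finset.range n).powerset.sup fun p => κ l p
  refine (countable_iUnion fun l => hg (g l)).mono ?_
  rintro x ⟨hx, hne⟩
  by_contra hcon
  apply hne
  simp only [mem_iUnion, mem_ofPred_eq, not_exists, not_and, not_not] at hcon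
  refine Metric.tendsto_atTop.2 fun ε hε => ?_
  obtain ⟨l, hl⟩ := exists_nat_one_div_lt (half_pos hε)
  obtain ⟨n, hn⟩ := hcon l hx
  let p : Finset ℕ := tr n x
  have hpn : p ∈ (Finset.range n).powerset := by
    rw [Finset.mem_powerset]
    intro a ha
    exact Finset.mem_range.2 (mem_tr.1 ha).1
  have hκg : κ l p ≤ g l n := Finset.le_sup (f := fun p => κ l p) hpn
  have hag : Agr (κ l p) p x := by
    intro a ha
    rw [mem_tr]
    refine ⟨fun hax => ⟨?_, hax⟩, fun h => h.2⟩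
    by_contra hna
    have := hn a hax (by omega)
    omega
  refine ⟨κ l p, fun m hm => ?_⟩
  have e1 := hκ l p (fin A (tr m x)) (agr_tr hag hm)
  have e2 := hκ l p (mem A ⟨x, hx⟩) (by rw [cc_mem]; exact hag)
  rw [Real.dist_eq]
  have e3 : |f (fin A (tr m x)) - f (mem A ⟨x, hx⟩)| ≤
      |f (fin A (tr m x)) - f (fin A p)| + |f (mem A ⟨x, hx⟩) - f (fin A p)| := by
    calc |f (fin A (tr m x)) - f (mem A ⟨x, hx⟩)|
        = |(f (fin A (tr m x)) - f (fin A p)) - (f (mem A ⟨x, hx⟩) - f (fin A p))| := by ring_nf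
      _ ≤ _ := abs_sub _ _
  linarith

/-- a continuous function vanishing on the finite sets has countable support -/
theorem support_countable (hg : ∀ g : ℕ → ℕ, {x | x ∈ A ∧ ¬ Gap g x}.Countable) {f : Sp A → ℝ}
    (hf : Continuous f) (h0 : ∀ s, f (fin A s) = 0) : {y : Sp A | f y ≠ 0}.Countable := by
  have h1 := exc_countable hg hf
  have h2 : {i : A | f (mem A i) ≠ 0}.Countable := by
    refine (h1.preimage (f := fun i : A => i.1) Subtype.val_injective).mono ?_
    intro i hi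
    refine ⟨i.2, fun ht => hi ?_⟩
    simp only [h0] at ht
    exact (tendsto_nhds_unique ht tendsto_const_nhds)
  refine (h2.image (mem A)).mono ?_
  intro y hy
  rcases sp_cases y with ⟨s, rfl⟩ | ⟨i, rfl⟩
  · exact absurd (h0 s) hy
  · exact ⟨i, hy, rfl⟩

/-! ### Countable tightness of the compact sets of continuous functions -/

theorem exists_match {K : Set (Cp (Sp A))} (hK : IsCompact K) {B : Set (Cp (Sp A))} (hB : B ⊆ K)
    {f : Cp (Sp A)} (hf : f ∈ closure B) (S : Set (Sp A)) (hS : S.Countable) :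
    ∃ (g : Cp (Sp A)) (C : Set (Cp (Sp A))), C ⊆ B ∧ C.Countable ∧ g ∈ closure C ∧
      ∀ x ∈ S, g.1 x = f.1 x := by
  obtain ⟨s, hs⟩ : ∃ s : ℕ → Sp A, S ⊆ range s := by
    rcases S.eq_empty_or_nonempty with h | h
    · exact ⟨fun _ => fin A ∅, by rw [h]; exact empty_subset _⟩
    · obtain ⟨s, hs⟩ := hS.exists_eq_range h
      exact ⟨s, hs.subset⟩
  have hf' : f.1 ∈ closure (Subtype.val '' B : Set (Sp A → ℝ)) := by
    have := IsInducing.subtypeVal.closure_eq_preimage_closure_image B (f := (Subtype.val :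
      Cp (Sp A) → Sp A → ℝ))
    rw [this] at hf
    exact hf
  obtain ⟨b, hb1, hb2⟩ := exists_approx hf' s
  choose c hc1 hc2 using hb1
  obtain ⟨g, -, hg⟩ := hK.exists_mapClusterPt (u := c) (f := atTop)
    (tendsto_principal.2 (Eventually.of_forall fun n => hB (hc1 n)))
  refine ⟨g, range c, range_subset_iff.2 hc1, countable_range c, ?_, fun x hx => ?_⟩
  · refine mem_closure_iff_nhds.2 fun U hU => ?_
    obtain ⟨n, hn⟩ := (mapClusterPt_iff_frequently.1 hg U hU).exists
    exact ⟨c n, hn, n, rfl⟩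
  · obtain ⟨k, rfl⟩ := hs hx
    refine cluster_eq hg ((continuous_apply (s k)).comp continuous_subtype_val) ?_
    refine (hb2 k).congr fun n => ?_
    rw [← hc2 n]; rfl

theorem compact_tight (hg : ∀ g : ℕ → ℕ, {x | x ∈ A ∧ ¬ Gap g x}.Countable)
    {K : Set (Cp (Sp A))} (hK : IsCompact K) {B : Set (Cp (Sp A))} (hB : B ⊆ K)
    {f : Cp (Sp A)} (hf : f ∈ closure B) : ∃ C ⊆ B, C.Countable ∧ f ∈ closure C := by
  classical
  have h := fun S : {S : Set (Sp A) // S.Countable} => exists_match hK hB hf S.1 S.2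
  choose g C hC1 hC2 hC3 hC4 using h
  have hfin : (range (fin A)).Countable := countable_range _
  -- the next countable set
  have hnext : ∀ S : {S : Set (Sp A) // S.Countable ∧ range (fin A) ⊆ S},
      (S.1 ∪ {y | (g ⟨S.1, S.2.1⟩).1 y ≠ f.1 y}).Countable ∧
        range (fin A) ⊆ S.1 ∪ {y | (g ⟨S.1, S.2.1⟩).1 y ≠ f.1 y} := by
    intro S
    refine ⟨S.2.1.union ?_, subset_union_of_subset_left S.2.2 _⟩
    have hc : Continuous fun y => (g ⟨S.1, S.2.1⟩).1 y - f.1 y :=
      (g ⟨S.1, S.2.1⟩).2.sub f.2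
    have := support_countable hg hc (fun s => by
      rw [hC4 ⟨S.1, S.2.1⟩ (fin A s) (S.2.2 ⟨s, rfl⟩), sub_self])
    simpa only [ne_eq, sub_eq_zero] using this
  let next : {S : Set (Sp A) // S.Countable ∧ range (fin A) ⊆ S} →
      {S : Set (Sp A) // S.Countable ∧ range (fin A) ⊆ S} := fun S => ⟨_, hnext S⟩
  let s : ℕ → {S : Set (Sp A) // S.Countable ∧ range (fin A) ⊆ S} := fun k =>
    Nat.rec ⟨range (fin A), hfin, le_rfl⟩ (fun _ S => next S) k
  have hs1 : ∀ k, (s (k + 1)).1 = (s k).1 ∪ {y | (g ⟨(s k).1, (s k).2.1⟩).1 y ≠ f.1 y} :=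
    fun k => rfl
  have hmono : Monotone fun k => (s k).1 :=
    monotone_nat_of_le_succ fun k => by
      change (s k).1 ⊆ (s (k + 1)).1
      rw [hs1]; exact subset_union_left
  let u : ℕ → Cp (Sp A) := fun k => g ⟨(s k).1, (s k).2.1⟩
  have hu : Tendsto u atTop (𝓝 f) := by
    rw [tendsto_subtype_rng, tendsto_pi_nhds]
    intro y
    refine tendsto_nhds_of_eventually_eq ?_
    by_cases h : ∃ k, (u k).1 y ≠ f.1 y
    · obtain ⟨k, hk⟩ := h
      have hy : y ∈ (s (k + 1)).1 := by rw [hs1]; exact Or.inr hk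
      filter_upwards [eventually_ge_atTop (k + 1)] with l hl
      exact hC4 ⟨(s l).1, (s l).2.1⟩ y (hmono hl hy)
    · push Not at h
      exact Eventually.of_forall h
  refine ⟨⋃ k, C ⟨(s k).1, (s k).2.1⟩, iUnion_subset fun k => hC1 _,
    countable_iUnion fun k => hC2 _, ?_⟩
  refine closure_closure.subset (mem_closure_of_tendsto hu (Eventually.of_forall fun k => ?_))
  exact closure_mono (subset_iUnion (fun k => C ⟨(s k).1, (s k).2.1⟩) k) (hC3 _)

/-! ### Countable subsets of compact sets -/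

theorem conv_tendsto {Q : Set ℕ} {u : ℕ → ℝ} (h : Conv Q u) :
    Tendsto u (cofinite ⊓ 𝓟 Q) (𝓝 0) := by
  refine Metric.tendsto_nhds.2 fun ε hε => ?_
  rw [eventually_inf_principal]
  filter_upwards [(h ε hε).compl_mem_cofinite] with n hn hnQ
  rw [Real.dist_eq, sub_zero]
  by_contra hcon
  exact hn ⟨hnQ, not_lt.1 hcon⟩

open Classical in
/-- the values of `f` on the members of `A` -/
noncomputable def onMem (f : Sp A → ℝ) (x : Set ℕ) : ℝ :=
  if h : x ∈ A then f (mem A ⟨x, h⟩) else 0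

theorem onMem_mem (f : Sp A → ℝ) (i : A) : onMem f i.1 = f (mem A i) := by
  simp [onMem, i.2]

/-- The property of the family `A` obtained from the recursion. -/
def Seq (A : Set (Set ℕ)) : Prop :=
  ∀ (φ : ℕ → Finset ℕ → ℝ) (ψ : ℕ → Set ℕ → ℝ) (E : Set (Set ℕ)),
    E ⊆ A → E.Countable →
    (∀ x ∈ A, x ∉ E → ∀ n, Tendsto (fun m => φ n (tr m x)) atTop (𝓝 (ψ n x))) →
    (∀ S ⊆ A, S.Countable → ∃ P : Set ℕ, P.Infinite ∧ (∀ p, Conv P (fun n => φ n p)) ∧
      ∀ x ∈ S, Conv P (fun n => ψ n x)) →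
    ∃ Q : Set ℕ, Q.Infinite ∧ (∀ p, Conv Q (fun n => φ n p)) ∧
      ((∃ p : Finset ℕ, ∃ ε : ℝ, 0 < ε ∧
        ∀ j, ∃ x ∈ A, Agr j p x ∧ {n | n ∈ Q ∧ |ψ n x| < ε}.Finite) ∨
      ∀ x ∈ A, Conv Q (fun n => ψ n x))

theorem countable_frechet (hg : ∀ g : ℕ → ℕ, {x | x ∈ A ∧ ¬ Gap g x}.Countable) (hseq : Seq A)
    {K : Set (Cp (Sp A))} (hK : IsCompact K) {C : Set (Cp (Sp A))} (hC : C ⊆ K)
    (hCc : C.Countable) {f : Cp (Sp A)} (hf : f ∈ closure C) :
    ∃ u : ℕ → Cp (Sp A), (∀ n, u n ∈ C) ∧ Tendsto u atTop (𝓝 f) := by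
  classical
  have hne : C.Nonempty := by
    rcases C.eq_empty_or_nonempty with h | h
    · rw [h, closure_empty] at hf
      exact absurd hf (notMem_empty f)
    · exact h
  obtain ⟨b', hb'⟩ := hCc.exists_eq_range hne
  let b : ℕ → Cp (Sp A) := fun n => b' (Nat.unpair n).1
  have hbC : ∀ n, b n ∈ C := fun n => by rw [hb']; exact ⟨_, rfl⟩
  let h : ℕ → Sp A → ℝ := fun n y => (b n).1 y - f.1 y
  have hcont : ∀ n, Continuous (h n) := fun n => (b n).2.sub f.2
  have hf' : f.1 ∈ closure (Subtype.val '' C : Set (Sp A → ℝ)) := by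
    have := IsInducing.subtypeVal.closure_eq_preimage_closure_image C (f := (Subtype.val :
      Cp (Sp A) → Sp A → ℝ))
    rw [this] at hf
    exact hf
  -- approximating on countable sets
  have hP : ∀ S ⊆ A, S.Countable → ∃ P : Set ℕ, P.Infinite ∧
      (∀ p, Conv P (fun n => h n (fin A p))) ∧ ∀ x ∈ S, Conv P (fun n => onMem (h n) x) := by
    intro S hSA hS
    -- enumerate the points
    have hpts : (range (fin A) ∪ {y | ∃ i : A, i.1 ∈ S ∧ y = mem A i}).Countable := by
      refine (countable_range _).union ?_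
      refine ((hS.preimage (f := fun i : A => i.1) Subtype.val_injective).image (mem A)).mono ?_
      rintro y ⟨i, hi, rfl⟩
      exact ⟨i, hi, rfl⟩
    obtain ⟨s, hs⟩ := hpts.exists_eq_range ⟨fin A ∅, Or.inl ⟨∅, rfl⟩⟩
    have hstep : ∀ k N : ℕ, ∃ n, N < n ∧ ∀ j ≤ k, |h n (s j)| < 1 / (k + 1 : ℝ) := by
      intro k N
      have hε : (0 : ℝ) < 1 / (k + 1 : ℝ) := by positivity
      obtain ⟨c, hc1, ⟨c', hc', rfl⟩⟩ := mem_closure_iff_nhds.1 hf' _
        (near_mem_nhds f.1 ((Finset.range (k + 1)).image s) hε)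
      rw [hb'] at hc'
      obtain ⟨m, rfl⟩ := hc'
      refine ⟨Nat.pair m (N + 1), lt_of_lt_of_le (Nat.lt_succ_self N) (Nat.right_le_pair _ _),
        fun j hj => ?_⟩
      have := hc1 (s j) (Finset.mem_image_of_mem s (Finset.mem_range.2 (by omega)))
      simpa [h, b] using this
    choose nx hnx1 hnx2 using hstep
    let d : ℕ → ℕ := fun k => Nat.rec (nx 0 0) (fun k n => nx (k + 1) n) k
    have hd1 : ∀ k, d (k + 1) = nx (k + 1) (d k) := fun k => rfl
    have hlt : ∀ k, d k < d (k + 1) := fun k => by rw [hd1]; exact hnx1 _ _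
    have hmono : StrictMono d := strictMono_nat_of_lt_succ hlt
    have hd : ∀ k, ∀ j ≤ k, |h (d k) (s j)| < 1 / (k + 1 : ℝ) := by
      intro k
      cases k with
      | zero => exact hnx2 0 0
      | succ k => rw [hd1]; exact hnx2 _ _
    have hconv : ∀ j, Conv (range d) (fun n => h n (s j)) := by
      intro j ε hε
      obtain ⟨l, hl⟩ := exists_nat_one_div_lt hε
      refine ((finite_Iio (max j l)).image d).subset ?_
      rintro _ ⟨⟨k, rfl⟩, hk⟩
      refine ⟨k, ?_, rfl⟩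
      by_contra hkj
      simp only [mem_Iio, not_lt] at hkj
      have h1 := hd k j ((le_max_left _ _).trans hkj)
      have h2 : (1 : ℝ) / (k + 1) ≤ 1 / (l + 1) := by
        apply one_div_le_one_div_of_le (by positivity)
        have : (l : ℝ) ≤ k := by exact_mod_cast (le_max_right _ _).trans hkj
        linarith
      linarith
    refine ⟨range d, infinite_range_of_injective hmono.injective, fun p => ?_, fun x hx => ?_⟩
    · have : fin A p ∈ range s := by rw [← hs]; exact Or.inl ⟨p, rfl⟩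
      obtain ⟨j, hj⟩ := this
      rw [← hj]
      exact hconv j
    · have : mem A ⟨x, hSA hx⟩ ∈ range s := by rw [← hs]; exact Or.inr ⟨_, hx, rfl⟩
      obtain ⟨j, hj⟩ := this
      have h2 := hconv j
      rw [hj] at h2
      have h3 : ∀ n, onMem (h n) x = h n (mem A ⟨x, hSA hx⟩) := fun n =>
        onMem_mem (h n) ⟨x, hSA hx⟩
      simpa only [h3] using h2
  have hE : (⋃ n, exc (h n)).Countable := countable_iUnion fun n => exc_countable hg (hcont n)
  obtain ⟨Q, hQ, hQ1, hQ2⟩ := hseq (fun n p => h n (fin A p)) (fun n x => onMem (h n) x)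
    (⋃ n, exc (h n)) (iUnion_subset fun n x hx => hx.1) hE (by
      intro x hx hxE n
      by_contra hcon
      refine hxE (mem_iUnion.2 ⟨n, hx, fun ht => hcon ?_⟩)
      have h3 : onMem (h n) x = h n (mem A ⟨x, hx⟩) := onMem_mem (h n) ⟨x, hx⟩
      simp only [h3]
      exact ht) hP
  have hneb : (cofinite ⊓ 𝓟 Q).NeBot := cofinite_inf_principal_neBot_iff.2 hQ
  rcases hQ2 with ⟨p, ε, hε, hkill⟩ | hgood
  · -- the sequence is killed: contradiction with compactness
    exfalso
    obtain ⟨g, -, hgc⟩ := hK.exists_mapClusterPt (u := b) (f := cofinite ⊓ 𝓟 Q)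
      (tendsto_principal.2 (Eventually.of_forall fun n => hC (hbC n)))
    have hgp : g.1 (fin A p) - f.1 (fin A p) = 0 := by
      have hcφ : Continuous fun w : Cp (Sp A) => w.1 (fin A p) - f.1 (fin A p) :=
        ((continuous_apply (fin A p)).comp continuous_subtype_val).sub continuous_const
      exact cluster_eq hgc hcφ (conv_tendsto (hQ1 p))
    have hcg : Continuous fun y => |g.1 y - f.1 y| := (g.2.sub f.2).abs
    have hU : {y : Sp A | |g.1 y - f.1 y| < ε} ∈ 𝓝 (fin A p) :=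
      (isOpen_lt hcg continuous_const).mem_nhds (by
        simp only [mem_ofPred_eq, hgp, abs_zero]; exact hε)
    obtain ⟨j, -, hj⟩ := (nhds_fin p).mem_iff.1 hU
    obtain ⟨x, hx, hx1, hx2⟩ := hkill j
    have h1 : |g.1 (mem A ⟨x, hx⟩) - f.1 (mem A ⟨x, hx⟩)| < ε := hj (by
      rw [mem_ofPred_eq, cc_mem]; exact hx1)
    have hcφ : Continuous fun w : Cp (Sp A) => |w.1 (mem A ⟨x, hx⟩) - f.1 (mem A ⟨x, hx⟩)| :=
      (((continuous_apply (mem A ⟨x, hx⟩)).comp continuous_subtype_val).sub continuous_const).abs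
    have hV : {w : Cp (Sp A) | |w.1 (mem A ⟨x, hx⟩) - f.1 (mem A ⟨x, hx⟩)| < ε} ∈ 𝓝 g :=
      (isOpen_lt hcφ continuous_const).mem_nhds h1
    have h2 := mapClusterPt_iff_frequently.1 hgc _ hV
    have h3 : ∀ᶠ n in cofinite ⊓ 𝓟 Q, ¬ |onMem (h n) x| < ε := by
      rw [eventually_inf_principal]
      filter_upwards [hx2.compl_mem_cofinite] with n hn hnQ hlt
      exact hn ⟨hnQ, hlt⟩
    obtain ⟨n, hn1, hn2⟩ := (h2.and_eventually h3).exists
    apply hn2
    have h4 : onMem (h n) x = h n (mem A ⟨x, hx⟩) := onMem_mem (h n) ⟨x, hx⟩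
    rw [h4]
    exact hn1
  · -- a convergent subsequence
    have htend : Tendsto b (cofinite ⊓ 𝓟 Q) (𝓝 f) := by
      rw [tendsto_subtype_rng, tendsto_pi_nhds]
      intro y
      have h1 : Tendsto (fun n => h n y) (cofinite ⊓ 𝓟 Q) (𝓝 0) := by
        rcases sp_cases y with ⟨s, rfl⟩ | ⟨i, rfl⟩
        · exact conv_tendsto (hQ1 s)
        · have h2 := hgood i.1 i.2
          simp only [onMem_mem] at h2
          exact conv_tendsto h2
      have h2 := h1.add_const (f.1 y)
      simpa [h] using h2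
    have henum : Tendsto (Nat.nth (· ∈ Q)) atTop (cofinite ⊓ 𝓟 Q) := by
      refine tendsto_inf.2 ⟨?_, ?_⟩
      · rw [Nat.cofinite_eq_atTop]
        exact (Nat.nth_strictMono hQ).tendsto_atTop
      · exact tendsto_principal.2 (Eventually.of_forall fun n => Nat.nth_mem_of_infinite hQ n)
    exact ⟨fun n => b (Nat.nth (· ∈ Q) n), fun n => hbC _, htend.comp henum⟩

theorem grothendieck_sp (hg : ∀ g : ℕ → ℕ, {x | x ∈ A ∧ ¬ Gap g x}.Countable) (hseq : Seq A) :
    Grothendieck (Sp A) := by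
  have := firstCountable (A := A)
  refine grothendieck_of_compact_frechet (Sp A) fun K hK B hB f hf => ?_
  obtain ⟨C, hCB, hC, hfC⟩ := compact_tight hg hK hB hf
  obtain ⟨u, hu1, hu2⟩ := countable_frechet hg hseq hK (hCB.trans hB) hC hfC
  exact ⟨u, fun n => hCB (hu1 n), hu2⟩

end Pool.Agent.Helper901.Groth
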