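import Mathlib
import Pool.Agent.Helper901.GrothSpace

/-!
# The CH counterexample on sums of Grothendieck spaces: the assembly
-/

set_option autoImplicit false

open Set Filter Topology Cardinal
open Pool.Agent.Helper901.GrothComb

namespace Pool.Agent.Helper901.Groth

variable {A : Set (Set ℕ)}

open Classical in
/-- the function `x ↦ [n ∈ x]` -/
noncomputable def ev (A : Set (Set ℕ)) (n : ℕ) : Cp (Sp A) :=
  ⟨fun x => if n ∈ cc x then 1 else 0, by
    refine continuous_def.2 fun V _ => ?_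
    intro s hs
    refine ⟨n + 1, fun x hx => ?_⟩
    have := hx n (by omega)
    simp only [mem_preimage, cc_fin, Finset.mem_coe] at hs ⊢
    simpa [this] using hs⟩

open Classical in
/-- the characteristic function of the isolated point `i` -/
noncomputable def de (hA : ∀ x ∈ A, x.Infinite) (i : A) : Cp (Sp A) :=
  ⟨fun x => if x = mem A i then 1 else 0, by
    refine continuous_def.2 fun V _ => ?_
    intro s hs
    obtain ⟨k, hk⟩ := (isClosed_mem hA i).isOpen_compl s (fin_ne_mem s i)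
    refine ⟨k, fun x hx => ?_⟩
    have := hk x hx
    simp only [mem_preimage, mem_compl_iff, mem_singleton_iff] at hs this ⊢
    simpa [this, fin_ne_mem] using hs⟩

/-- the zero function -/
def zero (X : Type) [TopologicalSpace X] : Cp X := ⟨fun _ => 0, continuous_const⟩

theorem ev_of_mem {n : ℕ} {x : Sp A} (h : n ∈ cc x) : (ev A n).1 x = 1 := by
  simp [ev, h]

theorem ev_of_notMem {n : ℕ} {x : Sp A} (h : n ∉ cc x) : (ev A n).1 x = 0 := by
  simp [ev, h]

theorem de_self (hA : ∀ x ∈ A, x.Infinite) (i : A) : (de hA i).1 (mem A i) = 1 := by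
  simp [de]

theorem de_ne (hA : ∀ x ∈ A, x.Infinite) {i : A} {x : Sp A} (h : x ≠ mem A i) :
    (de hA i).1 x = 0 := by
  simp [de, h]

theorem ev_tendsto (hA : ∀ x ∈ A, x.Infinite)
    (hAD : ∀ x ∈ A, ∀ y ∈ A, x ≠ y → (x ∩ y).Finite) (i : A) :
    Tendsto (fun n => ev A n) (cofinite ⊓ 𝓟 i.1) (𝓝 (de hA i)) := by
  rw [tendsto_subtype_rng, tendsto_pi_nhds]
  intro x
  refine tendsto_nhds_of_eventually_eq ?_
  rw [eventually_inf_principal]
  rcases sp_cases x with ⟨s, rfl⟩ | ⟨j, rfl⟩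
  · filter_upwards [s.finite_toSet.compl_mem_cofinite] with n hn _
    rw [de_ne hA (fin_ne_mem s i), ev_of_notMem (by rw [cc_fin]; exact hn)]
  · by_cases hij : i = j
    · subst hij
      refine Eventually.of_forall fun n hn => ?_
      rw [de_self, ev_of_mem (by rw [cc_mem]; exact hn)]
    · filter_upwards [(hAD i.1 i.2 j.1 j.2 fun h => hij (Subtype.ext h)).compl_mem_cofinite]
        with n hn hni
      have h1 : n ∉ j.1 := fun h => hn ⟨hni, h⟩
      rw [de_ne hA fun h => hij (mem_inj h).symm, ev_of_notMem (by rw [cc_mem]; exact h1)]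

theorem ev_tendsto_zero {x : Set ℕ} (hx : ∀ y ∈ A, (x ∩ y).Finite) :
    Tendsto (fun n => ev A n) (cofinite ⊓ 𝓟 x) (𝓝 (zero (Sp A))) := by
  rw [tendsto_subtype_rng, tendsto_pi_nhds]
  intro y
  refine tendsto_nhds_of_eventually_eq ?_
  rw [eventually_inf_principal]
  rcases sp_cases y with ⟨s, rfl⟩ | ⟨j, rfl⟩
  · filter_upwards [s.finite_toSet.compl_mem_cofinite] with n hn _
    exact ev_of_notMem (by rw [cc_fin]; exact hn)
  · filter_upwards [(hx j.1 j.2).compl_mem_cofinite] with n hn hni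
    exact ev_of_notMem (by rw [cc_mem]; exact fun h => hn ⟨hni, h⟩)

/-- The properties of the two families. -/
structure Fam (A₀ A₁ : Set (Set ℕ)) : Prop where
  inf₀ : ∀ x ∈ A₀, x.Infinite
  inf₁ : ∀ x ∈ A₁, x.Infinite
  ad₀ : ∀ x ∈ A₀, ∀ y ∈ A₀, x ≠ y → (x ∩ y).Finite
  ad₁ : ∀ x ∈ A₁, ∀ y ∈ A₁, x ≠ y → (x ∩ y).Finite
  ad : ∀ x ∈ A₀, ∀ y ∈ A₁, (x ∩ y).Finite
  mad : ∀ Y : Set ℕ, Y.Infinite → (∃ x ∈ A₀, (x ∩ Y).Infinite) ∨ ∃ x ∈ A₁, (x ∩ Y).Infinite
  infinite : A₀.Infinite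
  gap₀ : ∀ g : ℕ → ℕ, {x | x ∈ A₀ ∧ ¬ Gap g x}.Countable
  gap₁ : ∀ g : ℕ → ℕ, {x | x ∈ A₁ ∧ ¬ Gap g x}.Countable
  seq₀ : Seq A₀
  seq₁ : Seq A₁

theorem exists_fam (hCH : (ℵ₁ : Cardinal.{0}) = 𝔠) : ∃ A₀ A₁, Fam A₀ A₁ := by
  obtain ⟨A, h1, h2, h3, h4, h5, h6⟩ := exists_families hCH
  refine ⟨A false, A true, ⟨h1 false, h1 true, fun x hx y hy h => h2 false false x hx y hy
    (Or.inl h), fun x hx y hy h => h2 true true x hx y hy (Or.inl h), fun x hx y hy =>
    h2 false true x hx y hy (Or.inr (by decide)), fun Y hY => ?_, h4, fun g => h5 g false,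
    fun g => h5 g true, h6 false, h6 true⟩⟩
  obtain ⟨i, x, hx, hx2⟩ := h3 Y hY
  cases i
  · exact Or.inl ⟨x, hx, hx2⟩
  · exact Or.inr ⟨x, hx, hx2⟩

variable {A₀ A₁ : Set (Set ℕ)}

/-- a number outside finitely many points -/
theorem Fam.exists_notMem (h : Fam A₀ A₁) {s : Set (Sp A₀)} (hs : s.Finite) {t : Set (Sp A₁)}
    (ht : t.Finite) : ∃ n, (∀ x ∈ s, n ∉ cc x) ∧ ∀ x ∈ t, n ∉ cc x := by
  -- a member of `A₀` not in `s`
  obtain ⟨x, hx, hxs⟩ : ∃ x : A₀, mem A₀ x ∉ s ∧ True := by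
    have h1 : Infinite A₀ := h.infinite.to_subtype
    obtain ⟨x, hx⟩ := (hs.preimage (f := mem A₀) (fun a _ b _ hab => mem_inj hab)).exists_notMem
    exact ⟨x, hx, trivial⟩
  have hs' : (⋃ y ∈ s, x.1 ∩ cc y).Finite := by
    refine hs.biUnion fun y hy => ?_
    rcases sp_cases y with ⟨p, rfl⟩ | ⟨j, rfl⟩
    · rw [cc_fin]; exact p.finite_toSet.subset inter_subset_right
    · rw [cc_mem]
      refine h.ad₀ x.1 x.2 j.1 j.2 fun hxj => hx ?_
      rw [Subtype.ext hxj]; exact hy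
  have ht' : (⋃ y ∈ t, x.1 ∩ cc y).Finite := by
    refine ht.biUnion fun y hy => ?_
    rcases sp_cases y with ⟨p, rfl⟩ | ⟨j, rfl⟩
    · rw [cc_fin]; exact p.finite_toSet.subset inter_subset_right
    · rw [cc_mem]
      exact h.ad x.1 x.2 j.1 j.2
  obtain ⟨n, hn, hn2⟩ := ((h.inf₀ x.1 x.2).sdiff (hs'.union ht')).nonempty
  refine ⟨n, fun y hy hny => hn2 (Or.inl (mem_biUnion hy ⟨hn, hny⟩)), fun y hy hny =>
    hn2 (Or.inr (mem_biUnion hy ⟨hn, hny⟩))⟩

/-! ### The sum -/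

/-- a continuous function on the sum -/
def onSum {X Y : Type} [TopologicalSpace X] [TopologicalSpace Y] (f : Cp X) (g : Cp Y) :
    Cp (X ⊕ Y) := ⟨Sum.elim f.1 g.1, f.2.sumElim g.2⟩

theorem continuous_onSum {X Y : Type} [TopologicalSpace X] [TopologicalSpace Y] :
    Continuous fun p : Cp X × Cp Y => onSum p.1 p.2 := by
  refine continuous_induced_rng.2 (continuous_pi fun x => ?_)
  rcases x with x | y
  · exact (continuous_apply x).comp (continuous_subtype_val.comp continuous_fst)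
  · exact (continuous_apply y).comp (continuous_subtype_val.comp continuous_snd)

/-- The sum is not Grothendieck. -/
theorem Fam.not_grothendieck (h : Fam A₀ A₁) : ¬ Grothendieck (Sp A₀ ⊕ Sp A₁) := by
  intro hG
  let d : ℕ → Cp (Sp A₀ ⊕ Sp A₁) := fun n => onSum (ev A₀ n) (ev A₁ n)
  let Z : Set (Cp (Sp A₀ ⊕ Sp A₁)) := {f | f ≠ zero _}
  have hdZ : ∀ n, d n ∈ Z := by
    intro n hn
    have h1 : (d n).1 (Sum.inl (fin A₀ {n})) = 0 := by rw [hn]; rfl
    have h2 : (d n).1 (Sum.inl (fin A₀ {n})) = 1 := ev_of_mem (by simp [cc_fin])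
    rw [h1] at h2
    norm_num at h2
  let E : ℕ → Z := fun n => ⟨d n, hdZ n⟩
  have hEinj : ∀ m n, E m = E n → m = n := by
    intro m n hmn
    by_contra hne
    have h0 : d m = d n := congrArg Subtype.val hmn
    have h1 : (d n).1 (Sum.inl (fin A₀ {n})) = 1 := ev_of_mem (by simp [cc_fin])
    have h2 : (d m).1 (Sum.inl (fin A₀ {n})) = 0 := ev_of_notMem (by simpa [cc_fin] using hne)
    rw [h0, h1] at h2
    norm_num at h2
  have hacc : ∀ (B : Set Z) (x : Set ℕ) (z : Z), Tendsto d (cofinite ⊓ 𝓟 x) (𝓝 z.1) →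
      ((E ⁻¹' B) ∩ x).Infinite → AccPt z (𝓟 B) := by
    intro B x z hz hinf
    -- remove the index with value `z`, if any
    have hinf' : (((E ⁻¹' B) ∩ x) \ {n | E n = z}).Infinite := by
      refine hinf.sdiff ?_
      refine Set.Subsingleton.finite ?_
      intro m hm n hn
      exact hEinj m n (hm.trans hn.symm)
    have hne : (cofinite ⊓ 𝓟 (((E ⁻¹' B) ∩ x) \ {n | E n = z})).NeBot :=
      cofinite_inf_principal_neBot_iff.2 hinf'
    have h1 : Tendsto E (cofinite ⊓ 𝓟 (((E ⁻¹' B) ∩ x) \ {n | E n = z})) (𝓝[≠] z ⊓ 𝓟 B) := by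
      refine tendsto_inf.2 ⟨tendsto_nhdsWithin_iff.2 ⟨?_, ?_⟩, ?_⟩
      · rw [tendsto_subtype_rng]
        exact hz.mono_left (inf_le_inf_left _ (principal_mono.2 fun n hn => hn.1.2))
      · rw [eventually_inf_principal]
        exact Eventually.of_forall fun n hn => hn.2
      · rw [tendsto_principal, eventually_inf_principal]
        exact Eventually.of_forall fun n hn => hn.1.1
    exact h1.neBot
  have hcc : CountablyCompactIn (range E) := by
    intro B hB hBi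
    have hpre : (E ⁻¹' B).Infinite := by
      intro hfin
      refine hBi ((hfin.image E).subset fun b hb => ?_)
      obtain ⟨n, rfl⟩ := hB hb
      exact ⟨n, hb, rfl⟩
    rcases h.mad _ hpre with ⟨x, hx, hx2⟩ | ⟨x, hx, hx2⟩
    · have hlim : Tendsto d (cofinite ⊓ 𝓟 x) (𝓝 (onSum (de h.inf₀ ⟨x, hx⟩) (zero _))) :=
        (continuous_onSum.tendsto (de h.inf₀ ⟨x, hx⟩, zero _)).comp
          ((ev_tendsto h.inf₀ h.ad₀ ⟨x, hx⟩).prodMk_nhds
            (ev_tendsto_zero fun y hy => h.ad x hx y hy))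
      have hz : onSum (de h.inf₀ ⟨x, hx⟩) (zero _) ∈ Z := by
        intro h0
        have h1 : (onSum (de h.inf₀ ⟨x, hx⟩) (zero (Sp A₁))).1 (Sum.inl (mem A₀ ⟨x, hx⟩)) = 1 :=
          de_self h.inf₀ ⟨x, hx⟩
        rw [h0] at h1
        simp [zero] at h1
      refine ⟨⟨_, hz⟩, hacc B x ⟨_, hz⟩ hlim ?_⟩
      rw [inter_comm]; exact hx2
    · have hlim : Tendsto d (cofinite ⊓ 𝓟 x) (𝓝 (onSum (zero _) (de h.inf₁ ⟨x, hx⟩))) :=
        (continuous_onSum.tendsto (zero _, de h.inf₁ ⟨x, hx⟩)).comp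
          ((ev_tendsto_zero fun y hy => by rw [inter_comm]; exact h.ad y hy x hx).prodMk_nhds
            (ev_tendsto h.inf₁ h.ad₁ ⟨x, hx⟩))
      have hz : onSum (zero _) (de h.inf₁ ⟨x, hx⟩) ∈ Z := by
        intro h0
        have h1 : (onSum (zero (Sp A₀)) (de h.inf₁ ⟨x, hx⟩)).1 (Sum.inr (mem A₁ ⟨x, hx⟩)) = 1 :=
          de_self h.inf₁ ⟨x, hx⟩
        rw [h0] at h1
        simp [zero] at h1
      refine ⟨⟨_, hz⟩, hacc B x ⟨_, hz⟩ hlim ?_⟩
      rw [inter_comm]; exact hx2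
  have hcomp := hG Z (range E) hcc
  -- the image of the closure is closed
  have himg : IsCompact (Subtype.val '' closure (range E) : Set (Cp (Sp A₀ ⊕ Sp A₁))) :=
    hcomp.image continuous_subtype_val
  have hsub : range d ⊆ Subtype.val '' closure (range E) := by
    rintro _ ⟨n, rfl⟩
    exact ⟨E n, subset_closure ⟨n, rfl⟩, rfl⟩
  have hcl : closure (range d) ⊆ Subtype.val '' closure (range E) :=
    closure_minimal hsub himg.isClosed
  have h0 : zero (Sp A₀ ⊕ Sp A₁) ∈ closure (range d) := by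
    refine mem_closure_iff_nhds.2 fun U hU => ?_
    obtain ⟨V, hV, hVU⟩ := mem_nhds_induced _ _ _ |>.1 hU
    rw [nhds_pi, Filter.mem_pi] at hV
    obtain ⟨I, hI, t, ht, htV⟩ := hV
    obtain ⟨n, hn1, hn2⟩ := h.exists_notMem (s := Sum.inl ⁻¹' I) (t := Sum.inr ⁻¹' I)
      (hI.preimage Sum.inl_injective.injOn) (hI.preimage Sum.inr_injective.injOn)
    refine ⟨d n, hVU (htV fun x hx => ?_), n, rfl⟩
    have h1 : (d n).1 x = 0 := by
      rcases x with x | x
      · exact ev_of_notMem (hn1 x hx)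
      · exact ev_of_notMem (hn2 x hx)
    rw [h1]
    exact mem_of_mem_nhds (ht x)
  obtain ⟨z, -, hz⟩ := hcl h0
  exact z.2 hz

/-! ### The compact sets -/

/-- the compact set of functions -/
def Kc (A : Set (Set ℕ)) : Set (Cp (Sp A)) :=
  {f | f.1 ∈ closure (range fun n => (ev A n).1)}

theorem closure_continuous (hA : ∀ x ∈ A, x.Infinite)
    (hAD : ∀ x ∈ A, ∀ y ∈ A, x ≠ y → (x ∩ y).Finite) {f : Sp A → ℝ}
    (hf : f ∈ closure (range fun n => (ev A n).1)) : Continuous f := by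
  -- if `f` is nonzero at a point and the index set is finite, `f` is an evaluation
  have key : ∀ (T : Set ℕ) (U : Set (Sp A → ℝ)), T.Finite → U ∈ 𝓝 f →
      (∀ n, (ev A n).1 ∈ U → n ∈ T) → ∃ n ∈ T, f = (ev A n).1 := by
    intro T U hT hU hUT
    have h1 : f ∈ closure ((fun n => (ev A n).1) '' T) := by
      refine mem_closure_iff_nhds.2 fun V hV => ?_
      obtain ⟨_, ⟨hw1, hw2⟩, ⟨n, rfl⟩⟩ := mem_closure_iff_nhds.1 hf _ (inter_mem hU hV)
      exact ⟨_, hw2, n, hUT n hw1, rfl⟩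
    rw [(hT.image _).isClosed.closure_eq] at h1
    obtain ⟨n, hn, hn2⟩ := h1
    exact ⟨n, hn, hn2.symm⟩
  have hnear : ∀ x, f x ≠ 0 → {g : Sp A → ℝ | g x ≠ 0} ∈ 𝓝 f := fun x hx =>
    (isOpen_ne_fun (continuous_apply x) continuous_const).mem_nhds hx
  by_cases h1 : ∃ s, f (fin A s) ≠ 0
  · obtain ⟨s, hs⟩ := h1
    obtain ⟨n, -, hn⟩ := key s _ s.finite_toSet (hnear _ hs) (fun n hn => by
      by_contra hns
      exact hn (ev_of_notMem (by rw [cc_fin]; exact hns)))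
    rw [hn]
    exact (ev A n).2
  · push Not at h1
    have h2 : ∀ i j : A, f (mem A i) ≠ 0 → f (mem A j) ≠ 0 → i = j := by
      intro i j hi hj
      by_contra hij
      obtain ⟨n, -, hn⟩ := key (i.1 ∩ j.1) _
        (hAD i.1 i.2 j.1 j.2 fun h => hij (Subtype.ext h)) (inter_mem (hnear _ hi) (hnear _ hj))
        (fun n hn => by
          constructor
          · by_contra hns
            exact hn.1 (ev_of_notMem (by rw [cc_mem]; exact hns))
          · by_contra hns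
            exact hn.2 (ev_of_notMem (by rw [cc_mem]; exact hns)))
      have h3 := h1 {n}
      rw [hn, ev_of_mem (by simp [cc_fin])] at h3
      norm_num at h3
    refine continuous_def.2 fun V _ => ?_
    intro s hs
    have hs0 : (0 : ℝ) ∈ V := by
      have : f (fin A s) ∈ V := hs
      rwa [h1 s] at this
    by_cases h4 : ∃ i, f (mem A i) ≠ 0
    · obtain ⟨i, hi⟩ := h4
      obtain ⟨k, hk⟩ := (isClosed_mem hA i).isOpen_compl s (fin_ne_mem s i)
      refine ⟨k, fun x hx => ?_⟩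
      have hxi := hk x hx
      have hfx : f x = 0 := by
        rcases sp_cases x with ⟨t, rfl⟩ | ⟨j, rfl⟩
        · exact h1 t
        · by_contra hj
          exact hxi (by rw [h2 i j hi hj]; rfl)
      rw [mem_preimage, hfx]
      exact hs0
    · push Not at h4
      refine ⟨0, fun x _ => ?_⟩
      have hfx : f x = 0 := by
        rcases sp_cases x with ⟨t, rfl⟩ | ⟨j, rfl⟩
        · exact h1 t
        · exact h4 j
      rw [mem_preimage, hfx]
      exact hs0

theorem isCompact_Kc (hA : ∀ x ∈ A, x.Infinite)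
    (hAD : ∀ x ∈ A, ∀ y ∈ A, x ≠ y → (x ∩ y).Finite) : IsCompact (Kc A) := by
  have hind : IsInducing (Subtype.val : Cp (Sp A) → Sp A → ℝ) := IsInducing.subtypeVal
  have himg : Subtype.val '' Kc A = closure (range fun n => (ev A n).1) := by
    refine Subset.antisymm ?_ fun f hf => ⟨⟨f, closure_continuous hA hAD hf⟩, hf, rfl⟩
    rintro _ ⟨f, hf, rfl⟩
    exact hf
  rw [hind.isCompact_iff, himg]
  have hcpt : IsCompact (Set.pi univ (fun _ : Sp A => Icc (0 : ℝ) 1)) :=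
    isCompact_univ_pi fun x => isCompact_Icc
  refine hcpt.of_isClosed_subset isClosed_closure (closure_minimal ?_ hcpt.isClosed)
  rintro _ ⟨n, rfl⟩ x _
  by_cases hn : n ∈ cc x
  · simp only [ev_of_mem hn]; norm_num
  · simp only [ev_of_notMem hn]; norm_num

theorem ev_mem_Kc (n : ℕ) : ev A n ∈ Kc A := subset_closure ⟨n, rfl⟩

/-- The product of the compact sets is not Fréchet-Urysohn. -/
theorem Fam.not_frechet (h : Fam A₀ A₁) : ¬ FrechetUrysohnSpace (Kc A₀ × Kc A₁) := by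
  intro hFU
  -- the zero functions belong to the compact sets
  have hz : ∀ U : Set (Cp (Sp A₀)), ∀ V : Set (Cp (Sp A₁)), U ∈ 𝓝 (zero _) → V ∈ 𝓝 (zero _) →
      ∃ n, ev A₀ n ∈ U ∧ ev A₁ n ∈ V := by
    intro U V hU hV
    obtain ⟨U', hU', hUU⟩ := mem_nhds_induced _ _ _ |>.1 hU
    rw [nhds_pi, Filter.mem_pi] at hU'
    obtain ⟨I, hI, t, ht, htU⟩ := hU'
    obtain ⟨V', hV', hVV⟩ := mem_nhds_induced _ _ _ |>.1 hV
    rw [nhds_pi, Filter.mem_pi] at hV'
    obtain ⟨J, hJ, r, hr, hrV⟩ := hV'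
    obtain ⟨n, hn1, hn2⟩ := h.exists_notMem hI hJ
    refine ⟨n, hUU (htU fun x hx => ?_), hVV (hrV fun x hx => ?_)⟩
    · rw [ev_of_notMem (hn1 x hx)]
      exact mem_of_mem_nhds (ht x)
    · rw [ev_of_notMem (hn2 x hx)]
      exact mem_of_mem_nhds (hr x)
  have h0 : zero (Sp A₀) ∈ Kc A₀ := by
    change (zero (Sp A₀)).1 ∈ closure _
    refine mem_closure_iff_nhds.2 fun U hU => ?_
    obtain ⟨n, hn, -⟩ := hz (Subtype.val ⁻¹' U) univ
      (continuous_subtype_val.continuousAt.preimage_mem_nhds hU) univ_mem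
    exact ⟨_, hn, n, rfl⟩
  have h1 : zero (Sp A₁) ∈ Kc A₁ := by
    change (zero (Sp A₁)).1 ∈ closure _
    refine mem_closure_iff_nhds.2 fun U hU => ?_
    obtain ⟨n, -, hn⟩ := hz univ (Subtype.val ⁻¹' U) univ_mem
      (continuous_subtype_val.continuousAt.preimage_mem_nhds hU)
    exact ⟨_, hn, n, rfl⟩
  let e : ℕ → Kc A₀ × Kc A₁ := fun n => (⟨ev A₀ n, ev_mem_Kc n⟩, ⟨ev A₁ n, ev_mem_Kc n⟩)
  let o : Kc A₀ × Kc A₁ := (⟨zero _, h0⟩, ⟨zero _, h1⟩)
  have hcl : o ∈ closure (range e) := by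
    refine mem_closure_iff_nhds.2 fun W hW => ?_
    rw [nhds_prod_eq, Filter.mem_prod_iff] at hW
    obtain ⟨U, hU, V, hV, hUV⟩ := hW
    obtain ⟨U', hU', hUU⟩ := mem_nhds_induced _ _ _ |>.1 hU
    obtain ⟨V', hV', hVV⟩ := mem_nhds_induced _ _ _ |>.1 hV
    obtain ⟨n, hn1, hn2⟩ := hz U' V' hU' hV'
    exact ⟨e n, hUV ⟨hUU hn1, hVV hn2⟩, n, rfl⟩
  obtain ⟨u, hu, hul⟩ := hFU.closure_subset_seqClosure (range e) hcl
  choose n hn using hu
  have hev0 : ∀ x : Sp A₀, ∀ᶠ k in atTop, n k ∉ cc x := by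
    intro x
    have hc : Continuous fun w : Kc A₀ × Kc A₁ => w.1.1.1 x :=
      (continuous_apply x).comp (continuous_subtype_val.comp
        (continuous_subtype_val.comp continuous_fst))
    have h2 : Tendsto (fun k => (u k).1.1.1 x) atTop (𝓝 0) := (hc.tendsto o).comp hul
    filter_upwards [h2 (Iio_mem_nhds (show (0 : ℝ) < 1 by norm_num))] with k hk hnk
    have h3 : (u k).1.1.1 x = 1 := by rw [← hn k]; exact ev_of_mem hnk
    rw [mem_preimage, h3] at hk
    exact lt_irrefl _ (mem_Iio.1 hk)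
  have hev1 : ∀ x : Sp A₁, ∀ᶠ k in atTop, n k ∉ cc x := by
    intro x
    have hc : Continuous fun w : Kc A₀ × Kc A₁ => w.2.1.1 x :=
      (continuous_apply x).comp (continuous_subtype_val.comp
        (continuous_subtype_val.comp continuous_snd))
    have h2 : Tendsto (fun k => (u k).2.1.1 x) atTop (𝓝 0) := (hc.tendsto o).comp hul
    filter_upwards [h2 (Iio_mem_nhds (show (0 : ℝ) < 1 by norm_num))] with k hk hnk
    have h3 : (u k).2.1.1 x = 1 := by rw [← hn k]; exact ev_of_mem hnk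
    rw [mem_preimage, h3] at hk
    exact lt_irrefl _ (mem_Iio.1 hk)
  have hfinite : ∀ x : Set ℕ, (∀ᶠ k in atTop, n k ∉ x) → (x ∩ range n).Finite := by
    intro x hx
    obtain ⟨N, hN⟩ := eventually_atTop.1 hx
    refine ((finite_Iio N).image n).subset ?_
    rintro _ ⟨hm, k, rfl⟩
    refine ⟨k, ?_, rfl⟩
    by_contra hk
    exact hN k (not_lt.1 hk) hm
  have hrange : (range n).Infinite := by
    intro hfin
    have h2 := hev0 (fin A₀ hfin.toFinset)
    obtain ⟨k, hk⟩ := h2.exists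
    exact hk (by rw [cc_fin]; simp)
  rcases h.mad _ hrange with ⟨x, hx, hx2⟩ | ⟨x, hx, hx2⟩
  · exact hx2 (hfinite x (hev0 (mem A₀ ⟨x, hx⟩)))
  · exact hx2 (hfinite x (hev1 (mem A₁ ⟨x, hx⟩)))

/-- CH gives two Grothendieck spaces whose sum is not Grothendieck and with compact sets of
functions whose product is not Fréchet-Urysohn. -/
theorem counterexample (hCH : (ℵ₁ : Cardinal.{0}) = 𝔠) :
    ∃ (X Y : Type) (_ : TopologicalSpace X) (_ : TopologicalSpace Y), T35Space X ∧ T35Space Y ∧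
      Grothendieck X ∧ Grothendieck Y ∧ ¬ Grothendieck (X ⊕ Y) ∧
      ∃ (K : Set (Cp X)) (L : Set (Cp Y)), IsCompact K ∧ IsCompact L ∧
        ¬ FrechetUrysohnSpace (K × L) := by
  obtain ⟨A₀, A₁, h⟩ := exists_fam hCH
  exact ⟨Sp A₀, Sp A₁, inferInstance, inferInstance, t35 h.inf₀, t35 h.inf₁,
    grothendieck_sp h.gap₀ h.seq₀, grothendieck_sp h.gap₁ h.seq₁, h.not_grothendieck,
    Kc A₀, Kc A₁, isCompact_Kc h.inf₀ h.ad₀, isCompact_Kc h.inf₁ h.ad₁, h.not_frechet⟩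

end Pool.Agent.Helper901.Groth
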